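import Mathlib

set_option autoImplicit false

namespace Pool.Agent.Lib.MP_479b2c_co

open Finset

/-- The fewest edges of an `n`-uniform hypergraph with a monochromatic edge under every
`r`-colouring. -/
noncomputable def m (n r : ℕ) : ℕ :=
  sInf {k : ℕ | ∃ H : Finset (Finset ℕ), H.card = k ∧ (∀ e ∈ H, e.card = n) ∧
    ∀ f : ℕ → Fin r, ∃ e ∈ H, ∃ i : Fin r, ∀ x ∈ e, f x = i}

/-- Every colouring has a monochromatic member. -/
def NC {V : Type} (r : ℕ) (H : Finset (Finset V)) : Prop :=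
  ∀ f : V → Fin r, ∃ e ∈ H, ∃ c : Fin r, ∀ x ∈ e, f x = c

theorem m_le {V : Type} [Fintype V] {n r : ℕ} (H : Finset (Finset V))
    (hc : ∀ e ∈ H, n ≤ e.card) (hH : NC r H) : m n r ≤ H.card := by
  classical
  choose! s hs hsc using fun e (he : e ∈ H) => Finset.exists_subset_card_eq (hc e he)
  let φ : V ↪ ℕ := ⟨fun v => (Fintype.equivFin V v : ℕ), fun a b h => by
    simpa using Fin.ext h⟩
  let H' : Finset (Finset ℕ) := H.image (fun e => (s e).map φ)
  have h1 : H'.card ≤ H.card := card_image_le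
  have h2 : m n r ≤ H'.card := by
    refine Nat.sInf_le ⟨H', rfl, ?_, ?_⟩
    · intro e he
      obtain ⟨e', he', rfl⟩ := Finset.mem_image.1 he
      rw [Finset.card_map, hsc e' he']
    · intro f
      obtain ⟨e, he, c, hec⟩ := hH (fun v => f (φ v))
      refine ⟨(s e).map φ, Finset.mem_image_of_mem _ he, c, ?_⟩
      intro x hx
      obtain ⟨y, hy, rfl⟩ := Finset.mem_map.1 hx
      exact hec y (hs e he hy)
  exact h2.trans h1

theorem exists_opt {n r : ℕ} (hr : 1 ≤ r) (hn : 1 ≤ n) :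
    ∃ (K : ℕ) (H : Finset (Finset (Fin K))), H.card ≤ m n r ∧ (∀ e ∈ H, e.card = n) ∧
      NC r H := by
  classical
  have hne : {k : ℕ | ∃ H : Finset (Finset ℕ), H.card = k ∧ (∀ e ∈ H, e.card = n) ∧
    ∀ f : ℕ → Fin r, ∃ e ∈ H, ∃ i : Fin r, ∀ x ∈ e, f x = i}.Nonempty := by
    refine ⟨_, (range ((n - 1) * r + 1)).powersetCard n, rfl, ?_, ?_⟩
    · intro e he
      exact (Finset.mem_powersetCard.1 he).2
    · intro f
      obtain ⟨c, -, hc⟩ := Finset.exists_lt_card_fiber_of_mul_lt_card_of_maps_to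
        (s := range ((n - 1) * r + 1)) (t := (univ : Finset (Fin r))) (f := f) (n := n - 1)
        (fun _ _ => Finset.mem_univ _) (by simp [mul_comm])
      obtain ⟨e, he, hec⟩ := Finset.exists_subset_card_eq
        (show n ≤ ((range ((n - 1) * r + 1)).filter (fun x => f x = c)).card by omega)
      refine ⟨e, Finset.mem_powersetCard.2 ⟨he.trans (Finset.filter_subset _ _), hec⟩, c, ?_⟩
      intro x hx
      exact (Finset.mem_filter.1 (he hx)).2
  obtain ⟨H, hcard, hu, hnc⟩ := Nat.sInf_mem hne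
  let K : ℕ := (H.sup id).sup id + 1
  have hK : ∀ e ∈ H, ∀ x ∈ e, x < K := by
    intro e he x hx
    have h1 : x ∈ H.sup id := Finset.mem_sup.2 ⟨e, he, hx⟩
    have h2 : id x ≤ (H.sup id).sup id := Finset.le_sup h1
    exact Nat.lt_succ_of_le h2
  refine ⟨K, H.image (fun e => univ.filter (fun x : Fin K => (x : ℕ) ∈ e)), ?_, ?_, ?_⟩
  · have : m n r = H.card := hcard.symm
    rw [this]
    exact card_image_le
  · intro e he
    obtain ⟨e', he', rfl⟩ := Finset.mem_image.1 he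
    rw [← hu e' he']
    refine Finset.card_bij (fun x _ => (x : ℕ)) ?_ ?_ ?_
    · intro a ha
      exact (Finset.mem_filter.1 ha).2
    · intro a _ b _ h
      exact Fin.ext h
    · intro b hb
      exact ⟨⟨b, hK e' he' b hb⟩, by simpa using hb, rfl⟩
  · intro f
    obtain ⟨e, he, c, hc⟩ := hnc (fun x => if h : x < K then f ⟨x, h⟩ else ⟨0, hr⟩)
    refine ⟨_, Finset.mem_image_of_mem _ he, c, ?_⟩
    intro x hx
    have hx' := (Finset.mem_filter.1 hx).2
    have := hc x hx'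
    simpa using this

/-- Greedy covering. -/
theorem greedy {σ ω : Type} (S : Finset σ) (Ω : Finset ω)
    (R : ω → σ → Prop) (p : ℝ)
    (hp : ∀ s ∈ S, p * Ω.card ≤ (({a ∈ Ω | R a s} : Set ω).ncard : ℝ))
    (hΩ : Ω.Nonempty) (hp1 : p ≤ 1) :
    ∀ k : ℕ, ∃ F : Finset ω, F ⊆ Ω ∧ F.card ≤ k ∧
      (({s ∈ S | ∀ a ∈ F, ¬ R a s} : Set σ).ncard : ℝ) ≤ (1 - p) ^ k * S.card := by
  classical
  have hconvω : ∀ s, ({a ∈ Ω | R a s} : Set ω) = ((Ω.filter (fun a => R a s) : Finset ω) : Set ω) := by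
    intro s; ext a; simp
  have hconvσ : ∀ F : Finset ω, ({s ∈ S | ∀ a ∈ F, ¬ R a s} : Set σ) =
      ((S.filter (fun s => ∀ a ∈ F, ¬ R a s) : Finset σ) : Set σ) := by
    intro s; ext a; simp
  simp only [hconvω, hconvσ, Set.ncard_coe_finset] at hp ⊢
  intro k
  induction k with
  | zero =>
    refine ⟨∅, by simp, by simp, ?_⟩
    simp
  | succ k ih =>
    obtain ⟨F, hF, hFc, hFu⟩ := ih
    set U := S.filter (fun s => ∀ a ∈ F, ¬ R a s) with hU
    have hsum : ∑ a ∈ Ω, (p * U.card : ℝ) ≤ ∑ a ∈ Ω, ((U.filter (fun s => R a s)).card : ℝ) := by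
      have h1 : ∑ a ∈ Ω, (U.filter (fun s => R a s)).card =
          ∑ s ∈ U, (Ω.filter (fun a => R a s)).card :=
        Finset.sum_card_bipartiteAbove_eq_sum_card_bipartiteBelow R
      have h2 : ∑ a ∈ Ω, ((U.filter (fun s => R a s)).card : ℝ) =
          ∑ s ∈ U, ((Ω.filter (fun a => R a s)).card : ℝ) := by exact_mod_cast h1
      rw [h2]
      calc ∑ a ∈ Ω, (p * U.card : ℝ) = ∑ s ∈ U, (p * Ω.card : ℝ) := by
            simp only [Finset.sum_const, nsmul_eq_mul]; ring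
        _ ≤ _ := Finset.sum_le_sum fun s hs => hp s (Finset.mem_filter.1 hs).1
    obtain ⟨a, ha, hle⟩ := Finset.exists_le_of_sum_le hΩ hsum
    refine ⟨insert a F, Finset.insert_subset ha hF, (Finset.card_insert_le _ _).trans (by omega), ?_⟩
    have hsub : S.filter (fun s => ∀ b ∈ insert a F, ¬ R b s) = U.filter (fun s => ¬ R a s) := by
      ext s
      simp only [Finset.mem_filter, Finset.mem_insert, forall_eq_or_imp, hU]
      tauto
    rw [hsub]
    have h3 : (U.filter (fun s => R a s)).card + (U.filter (fun s => ¬ R a s)).card = U.card :=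
      Finset.card_filter_add_card_filter_not (s := U) (fun s => R a s)
    have h4 : ((U.filter (fun s => R a s)).card : ℝ) + ((U.filter (fun s => ¬ R a s)).card : ℝ)
        = U.card := by exact_mod_cast h3
    have h5 : (1 - p) * U.card ≤ (1 - p) * ((1 - p) ^ k * S.card) :=
      mul_le_mul_of_nonneg_left hFu (by linarith)
    calc ((U.filter (fun s => ¬ R a s)).card : ℝ) ≤ (1 - p) * U.card := by linarith
      _ ≤ (1 - p) * ((1 - p) ^ k * S.card) := h5
      _ = (1 - p) ^ (k + 1) * S.card := by ring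

/-- Few `y`-subsets of a `T`-set meet all large subsets. -/
theorem cover (T y : ℕ) (δ θ : ℝ) (hδ : 0 < δ) (hδ1 : δ ≤ 1) (hy : δ * T + y ≤ θ * T) :
    ∃ J : Finset (Finset (Fin T)), (∀ A ∈ J, A.card = y) ∧
      (J.card : ℝ) ≤ (T + 2) * (δ⁻¹) ^ y ∧
      ∀ S : Finset (Fin T), θ * T ≤ S.card → ∃ A ∈ J, A ⊆ S := by
  classical
  by_cases hex : ∃ S : Finset (Fin T), θ * T ≤ S.card
  swap
  · refine ⟨∅, by simp, ?_, fun S hS => absurd ⟨S, hS⟩ hex⟩
    simp only [Finset.card_empty, Nat.cast_zero]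
    positivity
  obtain ⟨S₀, hS₀⟩ := hex
  set Ω := (univ : Finset (Fin T)).powersetCard y with hΩdef
  have hΩc : Ω.card = T.choose y := by simp [hΩdef]
  have hyT : ∀ S : Finset (Fin T), θ * T ≤ S.card → y ≤ S.card := by
    intro S hS
    have : (y : ℝ) ≤ S.card := by
      have : 0 ≤ δ * T := by positivity
      linarith
    exact_mod_cast this
  have hΩ : Ω.Nonempty := by
    rw [hΩdef, Finset.powersetCard_nonempty]
    simpa using (hyT S₀ hS₀).trans (Finset.card_le_univ S₀)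
  set 𝒮 := (univ : Finset (Finset (Fin T))).filter (fun S => θ * T ≤ S.card) with h𝒮
  have hp0 : 0 < δ ^ y := by positivity
  have hp1 : δ ^ y ≤ 1 := pow_le_one₀ hδ.le hδ1
  have hcount : ∀ S ∈ 𝒮, δ ^ y * Ω.card ≤ (({A ∈ Ω | A ⊆ S} : Set (Finset (Fin T))).ncard : ℝ) := by
    intro S hS
    have hS' : θ * T ≤ S.card := (Finset.mem_filter.1 hS).2
    have h1 : ({A ∈ Ω | A ⊆ S} : Set (Finset (Fin T))) = (S.powersetCard y : Finset _) := by
      ext A
      simp only [hΩdef, Finset.mem_powersetCard, Finset.subset_univ, true_and,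
        Set.mem_ofPred_eq, Finset.mem_coe]
      tauto
    rw [h1, Set.ncard_coe_finset, Finset.card_powersetCard y S, hΩc]
    have h2 : ((T.descFactorial y : ℕ) : ℝ) ≤ (T : ℝ) ^ y := by
      exact_mod_cast Nat.descFactorial_le_pow T y
    have h3 : (δ * T) ^ y ≤ ((S.card.descFactorial y : ℕ) : ℝ) := by
      have h4 : (S.card + 1 - y) ^ y ≤ S.card.descFactorial y := Nat.pow_sub_le_descFactorial _ _
      have h5 : δ * T ≤ ((S.card + 1 - y : ℕ) : ℝ) := by
        have : ((S.card + 1 - y : ℕ) : ℝ) = S.card + 1 - y := by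
          have := hyT S hS'
          push_cast [Nat.cast_sub (show y ≤ S.card + 1 by omega)]
          ring
        rw [this]; linarith
      calc (δ * T) ^ y ≤ ((S.card + 1 - y : ℕ) : ℝ) ^ y :=
            pow_le_pow_left₀ (by positivity) h5 y
        _ ≤ _ := by exact_mod_cast h4
    have hf : (0 : ℝ) < (y.factorial : ℝ) := by exact_mod_cast Nat.factorial_pos y
    have h6 : ((T.descFactorial y : ℕ) : ℝ) = y.factorial * (T.choose y : ℝ) := by
      exact_mod_cast Nat.descFactorial_eq_factorial_mul_choose T y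
    have h7 : ((S.card.descFactorial y : ℕ) : ℝ) = y.factorial * (S.card.choose y : ℝ) := by
      exact_mod_cast Nat.descFactorial_eq_factorial_mul_choose S.card y
    rw [mul_pow] at h3
    have h8 : (y.factorial : ℝ) * (δ ^ y * (T.choose y : ℝ)) ≤ y.factorial * (S.card.choose y : ℝ) := by
      calc (y.factorial : ℝ) * (δ ^ y * (T.choose y : ℝ)) = δ ^ y * (T.descFactorial y : ℕ) := by
            rw [h6]; ring
        _ ≤ δ ^ y * (T : ℝ) ^ y := mul_le_mul_of_nonneg_left h2 hp0.le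
        _ ≤ _ := by rw [← h7]; exact h3
    exact le_of_mul_le_mul_left h8 hf
  obtain ⟨F, hF, hFc, hFu⟩ := greedy 𝒮 Ω (fun A S => A ⊆ S) (δ ^ y) hcount hΩ hp1
    ⌈(T + 1 : ℝ) / δ ^ y⌉₊
  refine ⟨F, ?_, ?_, ?_⟩
  · intro A hA
    exact (Finset.mem_powersetCard.1 (hF hA)).2
  · have h1 : (F.card : ℝ) ≤ (T + 1 : ℝ) / δ ^ y + 1 := by
      calc (F.card : ℝ) ≤ (⌈(T + 1 : ℝ) / δ ^ y⌉₊ : ℝ) := by exact_mod_cast hFc
        _ ≤ (T + 1 : ℝ) / δ ^ y + 1 := (Nat.ceil_lt_add_one (by positivity)).le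
    have h2 : 1 ≤ 1 / δ ^ y := by
      rw [le_div_iff₀ hp0]; simpa using hp1
    calc (F.card : ℝ) ≤ (T + 1 : ℝ) / δ ^ y + 1 := h1
      _ ≤ (T + 1 : ℝ) / δ ^ y + 1 / δ ^ y := by linarith
      _ = (T + 2) * (δ⁻¹) ^ y := by rw [inv_pow]; field_simp; ring
  · intro S hS
    by_contra hcon
    push Not at hcon
    have hmem : S ∈ ({S ∈ 𝒮 | ∀ A ∈ F, ¬ A ⊆ S} : Set (Finset (Fin T))) :=
      ⟨by simpa [h𝒮] using hS, hcon⟩
    have hfin : ({S ∈ 𝒮 | ∀ A ∈ F, ¬ A ⊆ S} : Set (Finset (Fin T))).Finite := Set.toFinite _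
    have h1 : 1 ≤ ({S ∈ 𝒮 | ∀ A ∈ F, ¬ A ⊆ S} : Set (Finset (Fin T))).ncard :=
      (Set.ncard_pos hfin).2 ⟨S, hmem⟩
    have h1' : (1 : ℝ) ≤ (({S ∈ 𝒮 | ∀ A ∈ F, ¬ A ⊆ S} : Set (Finset (Fin T))).ncard : ℝ) := by
      exact_mod_cast h1
    have h2 : (𝒮.card : ℝ) ≤ 2 ^ T := by
      have : 𝒮.card ≤ 2 ^ T := by
        calc 𝒮.card ≤ (univ : Finset (Finset (Fin T))).card := Finset.card_filter_le _ _
          _ = 2 ^ T := by simp
      exact_mod_cast this
    have h3 : (1 - δ ^ y) ^ ⌈(T + 1 : ℝ) / δ ^ y⌉₊ ≤ Real.exp (-(T + 1 : ℝ)) := by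
      have h4 : 1 - δ ^ y ≤ Real.exp (-δ ^ y) := by
        have := Real.add_one_le_exp (-δ ^ y); linarith
      calc (1 - δ ^ y) ^ ⌈(T + 1 : ℝ) / δ ^ y⌉₊ ≤ (Real.exp (-δ ^ y)) ^ ⌈(T + 1 : ℝ) / δ ^ y⌉₊ :=
            pow_le_pow_left₀ (by linarith) h4 _
        _ = Real.exp (⌈(T + 1 : ℝ) / δ ^ y⌉₊ * (-δ ^ y)) := by rw [Real.exp_nat_mul]
        _ ≤ Real.exp (-(T + 1 : ℝ)) := by
            apply Real.exp_le_exp.2
            have h5 := Nat.le_ceil ((T + 1 : ℝ) / δ ^ y)
            rw [div_le_iff₀ hp0] at h5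
            linarith
    have h4 : (2 : ℝ) ^ T ≤ Real.exp T := by
      have h5 : (2 : ℝ) ≤ Real.exp 1 := by
        have := Real.add_one_le_exp (1 : ℝ); linarith
      calc (2 : ℝ) ^ T ≤ (Real.exp 1) ^ T := pow_le_pow_left₀ (by norm_num) h5 T
        _ = Real.exp T := by rw [← Real.exp_nat_mul]; simp
    have h5 : (1 : ℝ) ≤ Real.exp (-(T + 1 : ℝ)) * Real.exp T := by
      calc (1 : ℝ) ≤ _ := h1'
        _ ≤ (1 - δ ^ y) ^ ⌈(T + 1 : ℝ) / δ ^ y⌉₊ * 𝒮.card := hFu
        _ ≤ Real.exp (-(T + 1 : ℝ)) * Real.exp T := by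
            apply mul_le_mul h3 (h2.trans h4) (by positivity) (by positivity)
    rw [← Real.exp_add] at h5
    have h6 : (-(T + 1 : ℝ)) + T < 0 := by linarith
    have := Real.exp_lt_exp.2 h6
    rw [Real.exp_zero] at this
    linarith

/-- Averaging over random maps with independent coordinates. -/
theorem exists_pin {W A : Type} [Fintype W] [Fintype A] (w : A → ℝ)
    (hw : ∀ a, 0 ≤ w a) (hs : ∑ a, w a = 1) (H : Finset (Finset W)) (K : ℕ)
    (hH : ∀ e ∈ H, e.card = K) {ι : Type} (s : Finset ι) (coef : ι → ℝ) (g : ι → A → ℝ) :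
    ∃ f : W → A, ∑ e ∈ H, ∑ i ∈ s, coef i * ∏ v ∈ e, g i (f v) ≤
      H.card * ∑ i ∈ s, coef i * (∑ a, w a * g i a) ^ K := by
  classical
  have hone : ∑ f : W → A, ∏ v, w (f v) = 1 := by
    have := Finset.prod_univ_sum (fun _ : W => (univ : Finset A)) (fun _ a => w a)
    rw [Fintype.piFinset_univ] at this
    rw [← this]
    simp [hs]
  have hprod : ∀ e ∈ H, ∀ i, ∑ f : W → A, (∏ v, w (f v)) * ∏ v ∈ e, g i (f v) =
      (∑ a, w a * g i a) ^ K := by
    intro e he i
    have h1 := Finset.prod_univ_sum (fun _ : W => (univ : Finset A))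
      (fun v a => w a * (if v ∈ e then g i a else 1))
    rw [Fintype.piFinset_univ] at h1
    have h2 : ∀ f : W → A, ∏ v, (w (f v) * (if v ∈ e then g i (f v) else 1)) =
        (∏ v, w (f v)) * ∏ v ∈ e, g i (f v) := by
      intro f
      rw [Finset.prod_mul_distrib]
      congr 1
      rw [Finset.prod_ite_mem]
      simp
    rw [← Finset.sum_congr rfl (fun f _ => h2 f), ← h1]
    have h3 : ∀ v : W, ∑ a, w a * (if v ∈ e then g i a else 1) =
        if v ∈ e then ∑ a, w a * g i a else 1 := by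
      intro v
      split_ifs
      · rfl
      · simpa using hs
    rw [Finset.prod_congr rfl (fun v _ => h3 v), Finset.prod_ite_mem]
    simp [hH e he]
  set X : (W → A) → ℝ := fun f => ∑ e ∈ H, ∑ i ∈ s, coef i * ∏ v ∈ e, g i (f v) with hX
  set B : ℝ := H.card * ∑ i ∈ s, coef i * (∑ a, w a * g i a) ^ K with hB
  have hE : ∑ f : W → A, (∏ v, w (f v)) * X f = B := by
    calc ∑ f : W → A, (∏ v, w (f v)) * X f
        = ∑ f : W → A, ∑ e ∈ H, ∑ i ∈ s, coef i * ((∏ v, w (f v)) * ∏ v ∈ e, g i (f v)) := by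
          refine Finset.sum_congr rfl fun f _ => ?_
          rw [hX]
          simp only [Finset.mul_sum]
          refine Finset.sum_congr rfl fun e _ => Finset.sum_congr rfl fun i _ => ?_
          ring
      _ = ∑ e ∈ H, ∑ i ∈ s, coef i * ∑ f : W → A, (∏ v, w (f v)) * ∏ v ∈ e, g i (f v) := by
          rw [Finset.sum_comm]
          refine Finset.sum_congr rfl fun e _ => ?_
          rw [Finset.sum_comm]
          refine Finset.sum_congr rfl fun i _ => ?_
          rw [Finset.mul_sum]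
      _ = ∑ e ∈ H, ∑ i ∈ s, coef i * (∑ a, w a * g i a) ^ K := by
          refine Finset.sum_congr rfl fun e he => Finset.sum_congr rfl fun i _ => ?_
          rw [hprod e he i]
      _ = B := by rw [Finset.sum_const, nsmul_eq_mul]
  by_contra hcon
  push Not at hcon
  have hpos : ∀ f : W → A, 0 ≤ ∏ v, w (f v) := fun f => Finset.prod_nonneg fun v _ => hw _
  have hlt : ∑ f : W → A, (∏ v, w (f v)) * B < ∑ f : W → A, (∏ v, w (f v)) * X f := by
    apply Finset.sum_lt_sum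
    · intro f _
      exact mul_le_mul_of_nonneg_left (hcon f).le (hpos f)
    · by_contra hne
      push Not at hne
      have hz : ∀ f : W → A, ∏ v, w (f v) = 0 := by
        intro f
        have h1 := hne f (Finset.mem_univ _)
        by_contra h2
        have h3 : 0 < ∏ v, w (f v) := lt_of_le_of_ne (hpos f) (Ne.symm h2)
        have h4 := mul_lt_mul_of_pos_left (hcon f) h3
        exact absurd h4 (not_lt.2 h1)
      have : ∑ f : W → A, ∏ v, w (f v) = 0 := Finset.sum_eq_zero fun f _ => hz f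
      rw [hone] at this
      exact one_ne_zero this
  rw [hE, ← Finset.sum_mul, hone, one_mul] at hlt
  exact lt_irrefl _ hlt

/-- The first moment lower bound. -/
theorem m_lower {n r : ℕ} (hr : 1 ≤ r) (hn : 1 ≤ n) : (r : ℝ) ^ n ≤ r * m n r := by
  classical
  obtain ⟨K, H, hH, hu, hnc⟩ := exists_opt hr hn
  have hr0 : (0 : ℝ) < r := by exact_mod_cast hr
  obtain ⟨f, hf⟩ := exists_pin (W := Fin K) (A := Fin r) (fun _ => (r : ℝ)⁻¹)
    (fun _ => by positivity) (by simp; field_simp) H n hu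
    (univ : Finset (Fin r)) (fun _ => 1) (fun c a => if a = c then 1 else 0)
  have h1 : (1 : ℝ) ≤ ∑ e ∈ H, ∑ c : Fin r, 1 * ∏ v ∈ e, (if f v = c then (1 : ℝ) else 0) := by
    obtain ⟨e, he, c, hc⟩ := hnc f
    have hnn : ∀ e : Finset (Fin K), ∀ c : Fin r,
        0 ≤ 1 * ∏ v ∈ e, (if f v = c then (1 : ℝ) else 0) := by
      intro e c
      rw [one_mul]
      exact Finset.prod_nonneg fun v _ => by split_ifs <;> norm_num
    calc (1 : ℝ) = 1 * ∏ v ∈ e, (if f v = c then (1 : ℝ) else 0) := by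
          rw [Finset.prod_congr rfl (fun v hv => if_pos (hc v hv))]; simp
      _ ≤ ∑ c : Fin r, 1 * ∏ v ∈ e, (if f v = c then (1 : ℝ) else 0) :=
          Finset.single_le_sum (f := fun c => 1 * ∏ v ∈ e, (if f v = c then (1 : ℝ) else 0))
            (fun c _ => hnn e c) (Finset.mem_univ c)
      _ ≤ _ := Finset.single_le_sum
            (f := fun e => ∑ c : Fin r, 1 * ∏ v ∈ e, (if f v = c then (1 : ℝ) else 0))
            (fun e _ => Finset.sum_nonneg fun c _ => hnn e c) he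
  have h2 := h1.trans hf
  have h3 : (H.card : ℝ) ≤ m n r := by exact_mod_cast hH
  simp only [mul_ite, mul_one, mul_zero, Finset.sum_ite_eq', Finset.mem_univ, if_true, one_mul,
    Finset.sum_const, Finset.card_univ, Fintype.card_fin, nsmul_eq_mul] at h2
  have h4 : (1 : ℝ) ≤ m n r * (r * (r : ℝ)⁻¹ ^ n) :=
    h2.trans (mul_le_mul_of_nonneg_right h3 (by positivity))
  have h5 : (0 : ℝ) < (r : ℝ) ^ n := by positivity
  rw [inv_pow] at h4
  calc (r : ℝ) ^ n = (r : ℝ) ^ n * 1 := by ring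
    _ ≤ (r : ℝ) ^ n * (m n r * (r * ((r : ℝ) ^ n)⁻¹)) := mul_le_mul_of_nonneg_left h4 h5.le
    _ = r * m n r := by field_simp

/-- The covering upper bound. -/
theorem m_upper {n r : ℕ} (hr : 1 ≤ r) (hn : 1 ≤ n) :
    (m n r : ℝ) ≤ 8 * r * n ^ 2 * (r : ℝ) ^ n := by
  classical
  have hr0 : (0 : ℝ) < r := by exact_mod_cast hr
  have hr1 : (1 : ℝ) ≤ r := by exact_mod_cast hr
  have hn0 : (0 : ℝ) < n := by exact_mod_cast hn
  have hn1 : (1 : ℝ) ≤ n := by exact_mod_cast hn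
  have hq : (1 : ℝ) / (2 * n) ≤ 1 / 2 := by
    apply one_div_le_one_div_of_le (by norm_num); linarith
  have hq0 : (0 : ℝ) < 1 / (2 * n) := by positivity
  have hri : (r : ℝ)⁻¹ ≤ 1 := inv_le_one_of_one_le₀ hr1
  have hri0 : (0 : ℝ) < (r : ℝ)⁻¹ := by positivity
  obtain ⟨J, hJc, hJ, hcov⟩ := cover (2 * r * n ^ 2) n ((r : ℝ)⁻¹ * (1 - 1 / (2 * n))) ((r : ℝ)⁻¹)
    (by apply mul_pos hri0; linarith)
    (by nlinarith) (by push_cast; field_simp; ring_nf; nlinarith)
  have h1 : m n r ≤ J.card := by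
    refine m_le J (fun e he => (hJc e he).ge) ?_
    intro f
    obtain ⟨c, -, hc⟩ := Finset.exists_le_card_fiber_of_mul_le_card_of_maps_to
        (s := (univ : Finset (Fin (2 * r * n ^ 2)))) (t := (univ : Finset (Fin r))) (f := f)
        (n := 2 * n ^ 2) (fun _ _ => Finset.mem_univ _)
        ⟨⟨0, hr⟩, Finset.mem_univ _⟩ (by simp; nlinarith)
    obtain ⟨A, hA, hAS⟩ := hcov (univ.filter (fun x => f x = c)) (by
      have : ((2 * n ^ 2 : ℕ) : ℝ) ≤ ((univ.filter (fun x => f x = c)).card : ℝ) := by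
        exact_mod_cast hc
      refine le_trans (le_of_eq ?_) this
      push_cast; field_simp)
    exact ⟨A, hA, c, fun x hx => (Finset.mem_filter.1 (hAS hx)).2⟩
  have h2 : (m n r : ℝ) ≤ J.card := by exact_mod_cast h1
  have h3 : (1 : ℝ) / 2 ≤ (1 - 1 / (2 * n)) ^ n := by
    have h4 := one_add_mul_le_pow (a := -(1 / (2 * n : ℝ))) (by linarith) n
    have h5 : 1 + (n : ℝ) * -(1 / (2 * n : ℝ)) = 1 / 2 := by field_simp; ring
    rw [h5] at h4
    simpa [sub_eq_add_neg] using h4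
  have h4 : (((r : ℝ)⁻¹ * (1 - 1 / (2 * n)))⁻¹) ^ n ≤ 2 * (r : ℝ) ^ n := by
    rw [inv_pow, mul_pow, mul_inv, inv_pow, inv_inv, mul_comm]
    apply mul_le_mul_of_nonneg_right _ (by positivity)
    rw [inv_le_comm₀ (by linarith) (by norm_num)]
    linarith
  calc (m n r : ℝ) ≤ J.card := h2
    _ ≤ _ := hJ
    _ ≤ (((2 * r * n ^ 2 : ℕ) : ℝ) + 2) * (2 * (r : ℝ) ^ n) :=
        mul_le_mul_of_nonneg_left h4 (by positivity)
    _ ≤ (4 * r * n ^ 2) * (2 * (r : ℝ) ^ n) := by
        apply mul_le_mul_of_nonneg_right _ (by positivity)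
        push_cast
        have : (1 : ℝ) ≤ r * n ^ 2 := by
          have : (1 : ℝ) ≤ n ^ 2 := by nlinarith
          nlinarith
        linarith
    _ = _ := by ring

end Pool.Agent.Lib.MP_479b2c_co
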