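import Pool.Agent.Lib.MP_479b2c_co.Main

set_option autoImplicit false

namespace Pool.Agent.Lib.MP_479b2c_co

open Finset

theorem L_le_log {j : ℕ} (hj : 1 ≤ j) : (L j : ℝ) ≤ 2 * (1 + Real.log j) := by
  have h1 : (Nat.log 2 j : ℝ) ≤ Real.logb 2 j := by
    exact_mod_cast Real.natLog_le_logb j 2
  have hlog : 0 ≤ Real.log j := Real.log_nonneg (by exact_mod_cast hj)
  have h2 : Real.logb 2 j ≤ 2 * Real.log j := by
    unfold Real.logb
    have h3 : (1 : ℝ) / 2 ≤ Real.log 2 := by have := Real.log_two_gt_d9; linarith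
    rw [div_le_iff₀ (by linarith)]
    nlinarith
  unfold L
  push_cast
  linarith

/-- The basic two-sided inequality. -/
theorem local_growth (r : ℕ) (hr : 2 ≤ r) : ∃ C : ℝ, 0 < C ∧ ∀ n j : ℕ, 1 ≤ n → 1 ≤ j →
    (m (n + j) r : ℝ) ≤ C * (j * (1 + Real.log j)) ^ 2 * (r : ℝ) ^ j * m n r ∧
    (r : ℝ) ^ j * m n r ≤ C * (j * (1 + Real.log j)) ^ 2 * m (n + j) r := by
  obtain ⟨C, u₀, hu₀, hP⟩ := main_ext r hr
  have hr1 : 1 ≤ r := by omega
  have hr0 : (0 : ℝ) < r := by positivity
  have hr2 : (2 : ℝ) ≤ r := by exact_mod_cast hr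
  have hr10 : (0 : ℝ) < r - 1 := by linarith
  set K₁ : ℝ := C * (u₀ * (1 + L u₀) * 2) ^ 2 with hK₁
  set K₂ : ℝ := 40 * r * (u₀ * (1 + L u₀)) * 2 + 2 with hK₂
  have hK₁0 : 0 ≤ K₁ := by positivity
  have hK₂0 : 0 < K₂ := by positivity
  refine ⟨6 * K₁ + 2 * r * K₁ * (1 + Real.exp r) + 8 * r ^ 2 * K₂ ^ 2, by positivity, ?_⟩
  intro n j hn hj
  have hj0 : (0 : ℝ) < j := by exact_mod_cast hj
  have hj1 : (1 : ℝ) ≤ j := by exact_mod_cast hj
  have hlogj : 0 ≤ Real.log j := Real.log_nonneg hj1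
  set u := max j u₀ with hu
  have huj : j ≤ u := le_max_left _ _
  have huu : u₀ ≤ u := le_max_right _ _
  have hu1 : 1 ≤ u := by omega
  have hule : u ≤ u₀ * j := by
    apply max_le
    · exact Nat.le_mul_of_pos_left _ (by omega)
    · exact Nat.le_mul_of_pos_right _ (by omega)
  have hLle : L u ≤ (1 + L u₀) * L j := by
    refine le_trans ?_ (L_mul' u₀ j)
    unfold L
    exact Nat.add_le_add_right (Nat.log_mono_right hule) 1
  have hF0 : 0 ≤ (j : ℝ) * (1 + Real.log j) := by positivity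
  set F : ℝ := (j : ℝ) * (1 + Real.log j) with hF
  have huL : (u : ℝ) * L u ≤ (u₀ * (1 + L u₀) * 2) * F := by
    have h1 : (u : ℝ) ≤ u₀ * j := by exact_mod_cast hule
    have h2 : (L u : ℝ) ≤ (1 + L u₀) * L j := by exact_mod_cast hLle
    calc (u : ℝ) * L u ≤ (u₀ * j) * ((1 + L u₀) * L j) :=
          mul_le_mul h1 h2 (by positivity) (by positivity)
      _ ≤ (u₀ * j) * ((1 + L u₀) * (2 * (1 + Real.log j))) := by
          apply mul_le_mul_of_nonneg_left _ (by positivity)
          exact mul_le_mul_of_nonneg_left (L_le_log hj) (by positivity)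
      _ = _ := by rw [hF]; ring
  have hL1 : (1 : ℝ) ≤ L u := by exact_mod_cast L_pos u
  have hu0 : (0 : ℝ) < u := by exact_mod_cast hu1
  have hu2 : (2 : ℝ) ≤ u := by exact_mod_cast hu₀.trans huu
  have hκ : (C : ℝ) * (u : ℝ) ^ 2 * (L u : ℝ) ≤ K₁ * F ^ 2 := by
    calc (C : ℝ) * (u : ℝ) ^ 2 * (L u : ℝ) ≤ (C : ℝ) * (u : ℝ) ^ 2 * ((L u : ℝ) * L u) := by
          apply mul_le_mul_of_nonneg_left _ (by positivity)
          exact le_mul_of_one_le_left (by linarith) hL1
      _ = C * ((u : ℝ) * L u) ^ 2 := by ring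
      _ ≤ C * ((u₀ * (1 + L u₀) * 2) * F) ^ 2 := by
          apply mul_le_mul_of_nonneg_left _ (by positivity)
          exact pow_le_pow_left₀ (by positivity) huL 2
      _ = _ := by rw [hK₁]; ring
  set κ : ℝ := (C : ℝ) * (u : ℝ) ^ 2 * (L u : ℝ) with hκdef
  have hκ0 : 0 ≤ κ := by positivity
  have hm0 : ∀ a : ℕ, (0 : ℝ) ≤ m a r := fun a => Nat.cast_nonneg _
  have hrj : (0 : ℝ) < (r : ℝ) ^ j := by positivity
  have hF2 : 0 ≤ F ^ 2 := by positivity
  have hexp : 0 < Real.exp (r : ℝ) := Real.exp_pos _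
  by_cases hgood : 40 * r * (u * L u) ≤ n
  · constructor
    · have h1 : P r (n + j) C u := hP (n + j) u huu (by omega)
      unfold P at h1
      rw [← hκdef] at h1
      have h2 := upper_of_ext hr1 hn h1
      have h3 : (m (n + j) r : ℝ) / u ≤ m (n + j) r / 2 :=
        div_le_div_of_nonneg_left (hm0 _) (by norm_num) hu2
      have h4 : (1 + 1 / (u : ℝ)) ^ j ≤ 3 := by
        have h5 : 1 + 1 / (u : ℝ) ≤ Real.exp (1 / u) := by
          have := Real.add_one_le_exp (1 / (u : ℝ)); linarith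
        have h6 : (j : ℝ) ≤ u := by exact_mod_cast huj
        calc (1 + 1 / (u : ℝ)) ^ j ≤ (Real.exp (1 / u)) ^ j :=
              pow_le_pow_left₀ (by positivity) h5 j
          _ = Real.exp (j * (1 / u)) := by rw [← Real.exp_nat_mul]
          _ ≤ Real.exp 1 := by
              apply Real.exp_le_exp.2
              rw [mul_one_div, div_le_one hu0]; exact h6
          _ ≤ 3 := by have := Real.exp_one_lt_d9; linarith
      have h5 : (m (n + j) r : ℝ) ≤ 2 * (m n r * (κ * (r * (1 + 1 / (u : ℝ))) ^ j)) := by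
        linarith
      calc (m (n + j) r : ℝ) ≤ 2 * (m n r * (κ * (r * (1 + 1 / (u : ℝ))) ^ j)) := h5
        _ = 2 * m n r * κ * (r : ℝ) ^ j * (1 + 1 / (u : ℝ)) ^ j := by rw [mul_pow]; ring
        _ ≤ 2 * m n r * κ * (r : ℝ) ^ j * 3 :=
            mul_le_mul_of_nonneg_left h4 (by have := hm0 n; positivity)
        _ = 6 * m n r * (r : ℝ) ^ j * κ := by ring
        _ ≤ 6 * m n r * (r : ℝ) ^ j * (K₁ * F ^ 2) :=
            mul_le_mul_of_nonneg_left hκ (by have := hm0 n; positivity)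
        _ = (6 * K₁) * F ^ 2 * (r : ℝ) ^ j * m n r := by ring
        _ ≤ (6 * K₁ + 2 * r * K₁ * (1 + Real.exp r) + 8 * r ^ 2 * K₂ ^ 2) * F ^ 2 *
              (r : ℝ) ^ j * m n r := by
            apply mul_le_mul_of_nonneg_right _ (hm0 n)
            apply mul_le_mul_of_nonneg_right _ hrj.le
            apply mul_le_mul_of_nonneg_right _ hF2
            have : 0 ≤ 2 * r * K₁ * (1 + Real.exp r) + 8 * r ^ 2 * K₂ ^ 2 := by positivity
            linarith
    · have h1 : P r n C u := hP n u huu hgood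
      unfold P at h1
      rw [← hκdef] at h1
      set b : ℝ := (r : ℝ) * (1 + 1 / (u : ℝ)) with hb
      have hbr : b - r = r / u := by rw [hb]; field_simp; ring
      have hbr' : (r : ℝ) ≤ b := by
        have : (0 : ℝ) ≤ r / u := by positivity
        linarith
      have hlogr0 : 0 ≤ Real.log r := Real.log_nonneg (by linarith)
      have hlogr : Real.log r ≤ r - 1 := Real.log_le_sub_one_of_pos hr0
      set lam : ℝ := j * (Real.log r / (r - 1)) with hlamdef
      have hlam0 : 0 ≤ lam := mul_nonneg hj0.le (div_nonneg hlogr0 hr10.le)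
      have hlamj : lam ≤ j := by
        have : Real.log r / (r - 1) ≤ 1 := by rw [div_le_one hr10]; exact hlogr
        calc lam ≤ j * 1 := mul_le_mul_of_nonneg_left this hj0.le
          _ = j := mul_one _
      have hrl : r * lam ≤ n + j := by
        have h2 : (r : ℝ) * lam ≤ r * j := mul_le_mul_of_nonneg_left hlamj hr0.le
        have h3 : r * j ≤ n := by
          refine le_trans ?_ hgood
          have h4 : r * j ≤ r * (u * L u) := by
            apply Nat.mul_le_mul_left
            exact huj.trans (Nat.le_mul_of_pos_right _ (L_pos u))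
          nlinarith
        have h4 : (r : ℝ) * j ≤ n := by exact_mod_cast h3
        linarith
      have h2 := lower_of_ext (j := j) (lam := lam) hr1 hn h1 hκ0 (by linarith) hlam0 hrl
      have h3 : (m n r : ℝ) / u ≤ m n r / 2 :=
        div_le_div_of_nonneg_left (hm0 _) (by norm_num) hu2
      have h4 : Real.exp (lam - r * lam) = ((r : ℝ) ^ j)⁻¹ := by
        have : lam - r * lam = -(j * Real.log r) := by
          rw [hlamdef]; field_simp; ring
        rw [this, Real.exp_neg, Real.exp_nat_mul, Real.exp_log hr0]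
      have h5 : Real.exp (b * lam - r * lam) ≤ Real.exp r := by
        apply Real.exp_le_exp.2
        have h6 : b * lam - r * lam = r / u * lam := by rw [← hbr]; ring
        rw [h6]
        have h7 : lam ≤ u := hlamj.trans (by exact_mod_cast huj)
        calc (r : ℝ) / u * lam ≤ r / u * u := mul_le_mul_of_nonneg_left h7 (by positivity)
          _ = r := by field_simp
      have h6 : Real.exp (b * lam - r * lam) / b ^ j ≤ Real.exp r * ((r : ℝ) ^ j)⁻¹ := by
        rw [div_eq_mul_inv]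
        apply mul_le_mul h5 _ (by positivity) hexp.le
        exact inv_anti₀ hrj (pow_le_pow_left₀ hr0.le hbr' j)
      have h7 : (m n r : ℝ) ≤ 2 * (m (n + j) r * (r * κ * ((1 + Real.exp r) * ((r : ℝ) ^ j)⁻¹))) := by
        have h8 : Real.exp (lam - r * lam) + Real.exp (b * lam - r * lam) / b ^ j ≤
            (1 + Real.exp r) * ((r : ℝ) ^ j)⁻¹ := by rw [h4]; linarith
        have h9 : (m (n + j) r : ℝ) * (r * κ * (Real.exp (lam - r * lam) +
            Real.exp (b * lam - r * lam) / b ^ j)) ≤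
            m (n + j) r * (r * κ * ((1 + Real.exp r) * ((r : ℝ) ^ j)⁻¹)) := by
          apply mul_le_mul_of_nonneg_left _ (hm0 _)
          exact mul_le_mul_of_nonneg_left h8 (by positivity)
        linarith
      calc (r : ℝ) ^ j * m n r
          ≤ (r : ℝ) ^ j * (2 * (m (n + j) r * (r * κ * ((1 + Real.exp r) * ((r : ℝ) ^ j)⁻¹)))) :=
            mul_le_mul_of_nonneg_left h7 hrj.le
        _ = 2 * r * (1 + Real.exp r) * m (n + j) r * κ := by field_simp
        _ ≤ 2 * r * (1 + Real.exp r) * m (n + j) r * (K₁ * F ^ 2) :=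
            mul_le_mul_of_nonneg_left hκ (by have := hm0 (n + j); positivity)
        _ = (2 * r * K₁ * (1 + Real.exp r)) * F ^ 2 * m (n + j) r := by ring
        _ ≤ (6 * K₁ + 2 * r * K₁ * (1 + Real.exp r) + 8 * r ^ 2 * K₂ ^ 2) * F ^ 2 *
              m (n + j) r := by
            apply mul_le_mul_of_nonneg_right _ (hm0 _)
            apply mul_le_mul_of_nonneg_right _ hF2
            have : 0 ≤ 6 * K₁ + 8 * r ^ 2 * K₂ ^ 2 := by positivity
            linarith
  · push Not at hgood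
    have hnr : (n : ℝ) ≤ 40 * r * (u * L u) := by exact_mod_cast hgood.le
    have hjF : (j : ℝ) ≤ F := by rw [hF]; nlinarith
    have hnj : (n : ℝ) + j ≤ K₂ * F := by
      have h1 : (40 : ℝ) * r * (u * L u) ≤ 40 * r * ((u₀ * (1 + L u₀) * 2) * F) :=
        mul_le_mul_of_nonneg_left huL (by positivity)
      rw [hK₂]
      nlinarith
    have hn0 : (0 : ℝ) ≤ n := Nat.cast_nonneg n
    have hnj2 : ((n : ℝ) + j) ^ 2 ≤ K₂ ^ 2 * F ^ 2 := by
      rw [← mul_pow]
      exact pow_le_pow_left₀ (by positivity) hnj 2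
    have hn2 : (n : ℝ) ^ 2 ≤ K₂ ^ 2 * F ^ 2 := by
      refine le_trans ?_ hnj2
      exact pow_le_pow_left₀ hn0 (by linarith) 2
    constructor
    · have h1 := m_upper (n := n + j) (r := r) hr1 (by omega)
      push_cast at h1
      have h2 := m_lower (n := n) (r := r) hr1 hn
      calc (m (n + j) r : ℝ) ≤ 8 * r * ((n : ℝ) + j) ^ 2 * (r : ℝ) ^ (n + j) := h1
        _ = 8 * r * ((n : ℝ) + j) ^ 2 * (r : ℝ) ^ j * (r : ℝ) ^ n := by rw [pow_add]; ring
        _ ≤ 8 * r * ((n : ℝ) + j) ^ 2 * (r : ℝ) ^ j * (r * m n r) :=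
            mul_le_mul_of_nonneg_left h2 (by positivity)
        _ = 8 * r ^ 2 * (r : ℝ) ^ j * m n r * ((n : ℝ) + j) ^ 2 := by ring
        _ ≤ 8 * r ^ 2 * (r : ℝ) ^ j * m n r * (K₂ ^ 2 * F ^ 2) :=
            mul_le_mul_of_nonneg_left hnj2 (by have := hm0 n; positivity)
        _ = (8 * r ^ 2 * K₂ ^ 2) * F ^ 2 * (r : ℝ) ^ j * m n r := by ring
        _ ≤ _ := by
            apply mul_le_mul_of_nonneg_right _ (hm0 n)
            apply mul_le_mul_of_nonneg_right _ hrj.le
            apply mul_le_mul_of_nonneg_right _ hF2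
            have : 0 ≤ 6 * K₁ + 2 * r * K₁ * (1 + Real.exp r) := by positivity
            linarith
    · have h1 := m_upper (n := n) (r := r) hr1 hn
      have h2 := m_lower (n := n + j) (r := r) hr1 (by omega)
      calc (r : ℝ) ^ j * m n r ≤ (r : ℝ) ^ j * (8 * r * (n : ℝ) ^ 2 * (r : ℝ) ^ n) :=
            mul_le_mul_of_nonneg_left h1 hrj.le
        _ = 8 * r * (n : ℝ) ^ 2 * (r : ℝ) ^ (n + j) := by rw [pow_add]; ring
        _ ≤ 8 * r * (n : ℝ) ^ 2 * (r * m (n + j) r) :=
            mul_le_mul_of_nonneg_left h2 (by positivity)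
        _ = 8 * r ^ 2 * m (n + j) r * (n : ℝ) ^ 2 := by ring
        _ ≤ 8 * r ^ 2 * m (n + j) r * (K₂ ^ 2 * F ^ 2) :=
            mul_le_mul_of_nonneg_left hn2 (by have := hm0 (n + j); positivity)
        _ = (8 * r ^ 2 * K₂ ^ 2) * F ^ 2 * m (n + j) r := by ring
        _ ≤ _ := by
            apply mul_le_mul_of_nonneg_right _ (hm0 _)
            apply mul_le_mul_of_nonneg_right _ hF2
            have : 0 ≤ 6 * K₁ + 2 * r * K₁ * (1 + Real.exp r) := by positivity
            linarith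

end Pool.Agent.Lib.MP_479b2c_co
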