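import Pool.Agent.Lib.MP_479b2c_co.Params

set_option autoImplicit false

namespace Pool.Agent.Lib.MP_479b2c_co

open Finset

theorem growth_bound {U Dr : ℝ} (hU : 1 ≤ U) (hD : 2 ≤ Dr) (y : ℕ) :
    (1 + y / (3 * U)) * (1 + 1 / (Dr * U)) ^ y ≤ (1 + 1 / U) ^ y := by
  have hU0 : 0 < U := by linarith
  have h1 : (1 + 1 / (3 * U)) * (1 + 1 / (Dr * U)) ≤ 1 + 1 / U := by
    have h2 : 1 / (Dr * U) ≤ 1 / (2 * U) :=
      one_div_le_one_div_of_le (by positivity) (by nlinarith)
    have h3 : (1 + 1 / (3 * U)) * (1 + 1 / (2 * U)) ≤ 1 + 1 / U := by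
      have : (1 + 1 / (3 * U)) * (1 + 1 / (2 * U)) = 1 + 1 / U - (U - 1) / (6 * U ^ 2) := by
        field_simp; ring
      rw [this]
      have : 0 ≤ (U - 1) / (6 * U ^ 2) := div_nonneg (by linarith) (by positivity)
      linarith
    exact (mul_le_mul_of_nonneg_left (by linarith) (by positivity)).trans h3
  have h4 : 1 + y / (3 * U) ≤ (1 + 1 / (3 * U)) ^ y := by
    have h5 := one_add_mul_le_pow (a := 1 / (3 * U)) (by
      have : (0 : ℝ) < 1 / (3 * U) := by positivity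
      linarith) y
    refine le_trans (le_of_eq ?_) h5
    ring
  calc (1 + y / (3 * U)) * (1 + 1 / (Dr * U)) ^ y
      ≤ (1 + 1 / (3 * U)) ^ y * (1 + 1 / (Dr * U)) ^ y :=
        mul_le_mul_of_nonneg_right h4 (by positivity)
    _ = ((1 + 1 / (3 * U)) * (1 + 1 / (Dr * U))) ^ y := by rw [mul_pow]
    _ ≤ _ := pow_le_pow_left₀ (by positivity) h1 y

theorem step_param {r : ℕ} (hr : 2 ≤ r) {D Q B C₁ C₂ C : ℕ} (hD : D = 32 * r ^ 3)
    (hQ : Q = D ^ 2 * (1 + L D)) (hB : B = 8 * r + 8 + Q) (hC₁ : C₁ = 16 * r * B)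
    (hC₂ : (r + 6) * C₁ ≤ C₂) (hC : 4 * r ^ 2 * C₂ + 2 ≤ C) {u N : ℕ}
    (hu1 : 8 * r ^ 2 * C * Q ≤ u)
    (hu2 : 4 * (2 * r * C ^ 2 * Q * (8 * r ^ 2 * C * Q) ^ (2 * r)) ≤ u)
    (hN : C₂ * (u * L u) ≤ N) (hExt : P r N C (D * u)) : P r N C u := by
  -- natural number facts
  have hD1 : 2 ≤ D := by
    rw [hD]
    have : 1 ≤ r ^ 3 := Nat.one_le_pow _ _ (by omega)
    omega
  have hLD := L_pos D
  have hQ1 : 1 ≤ Q := by
    rw [hQ]
    exact Nat.mul_pos (by positivity) (by omega)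
  have hC0 : 1 ≤ C := by omega
  have hu : 1 ≤ u := by
    refine le_trans ?_ hu1
    have : 0 < 8 * r ^ 2 * C * Q := by positivity
    omega
  have hL1 := L_pos u
  have hLDu := L_pos (D * u)
  have hB1 : 1 ≤ B := by omega
  have hC₁1 : 1 ≤ C₁ := by
    rw [hC₁]; exact Nat.mul_pos (by omega) hB1
  have huL : 1 ≤ u * L u := Nat.mul_pos hu hL1
  have hNpos : 1 ≤ N := by
    have : 1 ≤ C₂ := le_trans (Nat.mul_pos (by omega) hC₁1) hC₂
    exact le_trans (Nat.mul_pos this huL) hN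
  -- real facts
  have hr0 : (0 : ℝ) < r := by positivity
  have hr2 : (2 : ℝ) ≤ r := by exact_mod_cast hr
  have hU0 : (0 : ℝ) < u := by exact_mod_cast hu
  have hU1 : (1 : ℝ) ≤ u := by exact_mod_cast hu
  have hDr : (2 : ℝ) ≤ D := by exact_mod_cast hD1
  have hD0 : (0 : ℝ) < D := by linarith
  have hLr : (1 : ℝ) ≤ L u := by exact_mod_cast hL1
  have hLU : (L u : ℝ) ≤ u := by exact_mod_cast L_le hu
  have hQr : (1 : ℝ) ≤ Q := by exact_mod_cast hQ1
  have hCr : (1 : ℝ) ≤ C := by exact_mod_cast hC0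
  have hBr : (1 : ℝ) ≤ B := by exact_mod_cast hB1
  have hC₁r : (1 : ℝ) ≤ C₁ := by exact_mod_cast hC₁1
  have hDeq : (D : ℝ) = 32 * r ^ 3 := by exact_mod_cast hD
  have hQeq : (Q : ℝ) = D ^ 2 * (1 + L D) := by exact_mod_cast hQ
  have hC₁eq : (C₁ : ℝ) = 16 * r * B := by exact_mod_cast hC₁
  have hC₂r : ((r : ℝ) + 6) * C₁ ≤ C₂ := by exact_mod_cast hC₂
  have hCC : 4 * (r : ℝ) ^ 2 * C₂ + 2 ≤ C := by exact_mod_cast hC
  have hu1r : 8 * (r : ℝ) ^ 2 * C * Q ≤ u := by exact_mod_cast hu1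
  have hu2r : 4 * (2 * (r : ℝ) * C ^ 2 * Q * (8 * r ^ 2 * C * Q) ^ (2 * r)) ≤ u := by
    exact_mod_cast hu2
  have hNr : (C₂ : ℝ) * (u * L u) ≤ N := by exact_mod_cast hN
  have hLDur : (1 : ℝ) ≤ L (D * u) := by exact_mod_cast hLDu
  have hLmul : (L (D * u) : ℝ) ≤ (1 + L D) * L u := by exact_mod_cast L_mul' D u
  unfold P at hExt ⊢
  push_cast at hExt
  set κ : ℝ := (C : ℝ) * ((D : ℝ) * (u : ℝ)) ^ 2 * (L (D * u) : ℝ) with hκdef
  set b : ℝ := (r : ℝ) * (1 + 1 / ((D : ℝ) * (u : ℝ))) with hbdef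
  have hDU : (0 : ℝ) < D * u := by positivity
  have hbr : (b - r) = r / (D * u) := by rw [hbdef]; field_simp; ring
  have hb_ge : (r : ℝ) ≤ b := by
    have : (0 : ℝ) ≤ r / (D * u) := by positivity
    linarith
  have hb_le : b ≤ 2 * r := by
    have h1 : (r : ℝ) / (D * u) ≤ r := by
      rw [div_le_iff₀ hDU]
      have : (1 : ℝ) ≤ D * u := one_le_mul_of_one_le_of_one_le (by linarith) hU1
      exact le_mul_of_one_le_right hr0.le this
    linarith
  have hb1 : 1 ≤ b := by linarith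
  have hb0 : 0 < b := by linarith
  have hκ1 : 1 ≤ κ := by
    have h1 : (1 : ℝ) ≤ (D * u) ^ 2 := by
      have : (1 : ℝ) ≤ D * u := one_le_mul_of_one_le_of_one_le (by linarith) hU1
      exact one_le_pow₀ this
    have h2 : (1 : ℝ) ≤ C * (D * u) ^ 2 := one_le_mul_of_one_le_of_one_le hCr h1
    exact one_le_mul_of_one_le_of_one_le h2 hLDur
  have hκQ : κ ≤ C * u ^ 2 * L u * Q := by
    rw [hκdef, hQeq]
    calc (C : ℝ) * (D * u) ^ 2 * L (D * u) ≤ C * (D * u) ^ 2 * ((1 + L D) * L u) :=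
          mul_le_mul_of_nonneg_left hLmul (by positivity)
      _ = _ := by ring
  have hκU : κ ≤ C * Q * u ^ 3 := by
    refine hκQ.trans ?_
    calc (C : ℝ) * u ^ 2 * L u * Q ≤ C * u ^ 2 * u * Q := by
          apply mul_le_mul_of_nonneg_right _ (by positivity)
          exact mul_le_mul_of_nonneg_left hLU (by positivity)
      _ = _ := by ring
  set W : ℝ := 8 * r ^ 2 * u * κ with hWdef
  have hW1 : 1 ≤ W := by
    have h0 : (1 : ℝ) ≤ (r : ℝ) ^ 2 := one_le_pow₀ (by linarith)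
    have h1 : (1 : ℝ) ≤ 8 * r ^ 2 * u := one_le_mul_of_one_le_of_one_le (by linarith) hU1
    exact one_le_mul_of_one_le_of_one_le h1 hκ1
  have hW0 : 0 < W := by linarith
  have hWle : W ≤ (8 * r ^ 2 * C * Q) * u ^ 4 := by
    rw [hWdef]
    calc 8 * (r : ℝ) ^ 2 * u * κ ≤ 8 * (r : ℝ) ^ 2 * u * (C * Q * u ^ 3) :=
          mul_le_mul_of_nonneg_left hκU (by positivity)
      _ = _ := by ring
  have hW5 : W ≤ (u : ℝ) ^ 5 := by
    refine hWle.trans ?_
    calc (8 * (r : ℝ) ^ 2 * C * Q) * u ^ 4 ≤ u * u ^ 4 :=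
          mul_le_mul_of_nonneg_right hu1r (by positivity)
      _ = _ := by ring
  have hlogW0 : 0 ≤ Real.log W := Real.log_nonneg hW1
  have hlogW : Real.log W ≤ 5 * L u := by
    rw [Real.log_le_iff_le_exp hW0]
    refine hW5.trans ?_
    calc (u : ℝ) ^ 5 ≤ (Real.exp (L u)) ^ 5 := pow_le_pow_left₀ hU0.le (le_exp_L u) 5
      _ = Real.exp (5 * L u) := by rw [← Real.exp_nat_mul]; norm_num
  -- the parameters
  set z : ℕ := C₁ * (u * L u) with hzdef
  have hzr : (z : ℝ) = C₁ * (u * L u) := by rw [hzdef]; push_cast; ring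
  have hz0 : (0 : ℝ) ≤ z := Nat.cast_nonneg z
  have hlogr0 : 0 ≤ Real.log r := Real.log_nonneg (by linarith)
  have hlogr : Real.log r ≤ r - 1 := Real.log_le_sub_one_of_pos hr0
  have hr10 : (0 : ℝ) < r - 1 := by linarith
  set lam : ℝ := z * (Real.log r / (r - 1)) with hlamdef
  have hlam0 : 0 ≤ lam := by
    apply mul_nonneg hz0 (div_nonneg hlogr0 hr10.le)
  have hlamz : lam ≤ z := by
    have : Real.log r / (r - 1) ≤ 1 := by rw [div_le_one hr10]; exact hlogr
    calc lam ≤ z * 1 := mul_le_mul_of_nonneg_left this hz0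
      _ = z := mul_one _
  have hlamr : (r - 1) * lam = z * Real.log r := by
    rw [hlamdef]; field_simp
  set E : ℝ := (b - r) * lam with hEdef
  have hE0 : 0 ≤ E := mul_nonneg (by linarith) hlam0
  have hEle : E ≤ C₁ * L u / (32 * r ^ 2) := by
    rw [hEdef, hbr]
    calc (r : ℝ) / (D * u) * lam ≤ r / (D * u) * z :=
          mul_le_mul_of_nonneg_left hlamz (by positivity)
      _ = C₁ * L u / (32 * r ^ 2) := by rw [hzr, hDeq]; field_simp
  have hE1 : E ≤ C₁ * L u := by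
    refine hEle.trans (div_le_self (by positivity) ?_)
    have h0 : (1 : ℝ) ≤ (r : ℝ) ^ 2 := one_le_pow₀ (by linarith)
    linarith
  have h2rE : 2 * r * E ≤ B * L u := by
    calc 2 * r * E ≤ 2 * r * (C₁ * L u / (32 * r ^ 2)) :=
          mul_le_mul_of_nonneg_left hEle (by positivity)
      _ = B * L u := by rw [hC₁eq]; field_simp; ring
  set μ : ℝ := E + Real.log W with hμdef
  have hμ0 : 0 ≤ μ := by linarith
  have hS : r * lam + μ ≤ N := by
    refine le_trans ?_ hNr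
    have h1 : (r : ℝ) * lam ≤ r * (C₁ * (u * L u)) := by
      rw [← hzr]; exact mul_le_mul_of_nonneg_left hlamz hr0.le
    have h2 : μ ≤ 6 * (C₁ * (u * L u)) := by
      have h3 : (L u : ℝ) ≤ u * L u := le_mul_of_one_le_left (by linarith) hU1
      have h4 : (u : ℝ) * L u ≤ C₁ * (u * L u) :=
        le_mul_of_one_le_left (by positivity) hC₁r
      have h5 : (C₁ : ℝ) * L u ≤ C₁ * (u * L u) := mul_le_mul_of_nonneg_left h3 (by positivity)
      linarith
    have h6 : ((r : ℝ) + 6) * C₁ * (u * L u) ≤ C₂ * (u * L u) :=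
      mul_le_mul_of_nonneg_right hC₂r (by positivity)
    have h7 : ((r : ℝ) + 6) * C₁ * (u * L u) =
      r * (C₁ * (u * L u)) + 6 * (C₁ * (u * L u)) := by ring
    linarith
  have hq2 : (1 : ℝ) / (2 * u) ≤ 1 / 2 := one_div_le_one_div_of_le (by norm_num) (by linarith)
  have hq1 : (1 : ℝ) / (4 * r * u) ≤ 1 / 8 := by
    apply one_div_le_one_div_of_le (by norm_num)
    have h1 : (8 : ℝ) ≤ 4 * r := by linarith
    exact h1.trans (le_mul_of_one_le_right (by linarith) hU1)
  have hri : (r : ℝ)⁻¹ ≤ 1 / 2 := by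
    rw [← one_div]; exact one_div_le_one_div_of_le (by norm_num) hr2
  have hri0 : (0 : ℝ) < (r : ℝ)⁻¹ := by positivity
  have hq20 : (0 : ℝ) < 1 / (2 * u) := by positivity
  have hq10 : (0 : ℝ) < 1 / (4 * r * u) := by positivity
  have hTr : ((4 * r ^ 2 * u * z : ℕ) : ℝ) = 4 * r ^ 2 * u * z := by push_cast; ring
  have hTκ : ((4 * r ^ 2 * u * z : ℕ) : ℝ) + 2 ≤ (C : ℝ) * (u : ℝ) ^ 2 * (L u : ℝ) := by
    rw [hTr, hzr]
    have h0 : (C₁ : ℝ) ≤ C₂ := le_trans (le_mul_of_one_le_left (by linarith) (by linarith)) hC₂r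
    have h2 : (1 : ℝ) ≤ (u : ℝ) ^ 2 * L u :=
      one_le_mul_of_one_le_of_one_le (one_le_pow₀ hU1) hLr
    have h3 : (4 * (r : ℝ) ^ 2 * C₁ + 2) * ((u : ℝ) ^ 2 * L u) ≤ C * ((u : ℝ) ^ 2 * L u) := by
      apply mul_le_mul_of_nonneg_right _ (by positivity)
      have : 4 * (r : ℝ) ^ 2 * C₁ ≤ 4 * (r : ℝ) ^ 2 * C₂ :=
        mul_le_mul_of_nonneg_left h0 (by positivity)
      linarith
    calc 4 * (r : ℝ) ^ 2 * u * (C₁ * (u * L u)) + 2
        = 4 * (r : ℝ) ^ 2 * C₁ * ((u : ℝ) ^ 2 * L u) + 2 := by ring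
      _ ≤ 4 * (r : ℝ) ^ 2 * C₁ * ((u : ℝ) ^ 2 * L u) + 2 * ((u : ℝ) ^ 2 * L u) := by linarith
      _ = (4 * (r : ℝ) ^ 2 * C₁ + 2) * ((u : ℝ) ^ 2 * L u) := by ring
      _ ≤ C * ((u : ℝ) ^ 2 * L u) := h3
      _ = _ := by ring
  have hδ₁1 : (r : ℝ)⁻¹ * (1 + 1 / (4 * r * u)) ≤ 1 := by
    have h1 : (r : ℝ)⁻¹ * (1 + 1 / (4 * r * u)) ≤ 1 / 2 * (1 + 1 / 8) :=
      mul_le_mul hri (by linarith) (by linarith) (by norm_num)
    refine h1.trans (by norm_num)
  have hδ₂1 : (r : ℝ)⁻¹ * (1 - 1 / (2 * u)) ≤ 1 := by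
    have h1 : (r : ℝ)⁻¹ * (1 - 1 / (2 * u)) ≤ 1 / 2 * 1 :=
      mul_le_mul hri (by linarith) (by linarith) (by norm_num)
    refine h1.trans (by norm_num)
  refine step_general (T := 4 * r ^ 2 * u * z) (z := z) (y₁ := 2 * z) hr hNpos
    (ε := 1 / (2 * r ^ 2 * u))
    (δ₁ := (r : ℝ)⁻¹ * (1 + 1 / (4 * r * u))) (δ₂ := (r : ℝ)⁻¹ * (1 - 1 / (2 * u)))
    (lam := lam) (μ := μ) hExt (by linarith) hb1
    (by positivity) hδ₁1 ?_ (mul_pos hri0 (by linarith)) hδ₂1 ?_ hTκ
    (delta₂_bound (by omega) hu) ?_ hlam0 hμ0 hS ?_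
  · rw [hTr]
    apply le_of_eq
    field_simp
    ring
  · rw [hTr]
    push_cast
    apply le_of_eq
    field_simp
    ring
  · intro y hy _
    have hyr : (2 * z : ℝ) ≤ y := by exact_mod_cast hy.le
    have h1 : (Q : ℝ) ≤ 1 + y / (3 * u) := by
      have h2 : (Q : ℝ) ≤ y / (3 * u) := by
        rw [le_div_iff₀ (by positivity)]
        refine le_trans ?_ hyr
        rw [hzr, hC₁eq]
        have h3 : (Q : ℝ) ≤ B := by exact_mod_cast (by omega : Q ≤ B)
        have h4 : (Q : ℝ) * (3 * u) ≤ B * (3 * u) := mul_le_mul_of_nonneg_right h3 (by positivity)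
        have h5 : (u : ℝ) ≤ u * L u := le_mul_of_one_le_right hU0.le hLr
        have h6 : (B : ℝ) * (3 * u) ≤ B * (3 * (u * L u)) := by
          apply mul_le_mul_of_nonneg_left _ (by positivity)
          linarith
        have h7 : (B : ℝ) * (3 * (u * L u)) ≤ 2 * (16 * r * B * (u * L u)) := by
          have h8 : (0 : ℝ) ≤ B * (u * L u) := by positivity
          have h9 : (3 : ℝ) * (B * (u * L u)) ≤ (32 * r) * (B * (u * L u)) :=
            mul_le_mul_of_nonneg_right (by linarith) h8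
          linarith
        linarith
      linarith
    have h9 := growth_bound hU1 hDr y
    rw [hbdef, mul_pow, mul_pow]
    calc κ * ((r : ℝ) ^ y * (1 + 1 / (D * u)) ^ y)
        ≤ (C * u ^ 2 * L u * Q) * ((r : ℝ) ^ y * (1 + 1 / (D * u)) ^ y) :=
          mul_le_mul_of_nonneg_right hκQ (by positivity)
      _ = (C * u ^ 2 * L u * (r : ℝ) ^ y) * (Q * (1 + 1 / (D * u)) ^ y) := by ring
      _ ≤ (C * u ^ 2 * L u * (r : ℝ) ^ y) * ((1 + y / (3 * u)) * (1 + 1 / (D * u)) ^ y) := by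
          apply mul_le_mul_of_nonneg_left _ (by positivity)
          exact mul_le_mul_of_nonneg_right h1 (by positivity)
      _ ≤ (C * u ^ 2 * L u * (r : ℝ) ^ y) * (1 + 1 / u) ^ y :=
          mul_le_mul_of_nonneg_left h9 (by positivity)
      _ = _ := by ring
  · -- the cost
    have hX : r * ((r - 1) * κ * (Real.exp (lam - (r * lam + μ)) +
        Real.exp (b * lam - (r * lam + μ)))) ≤ 1 / (4 * u) := by
      have h1 : Real.exp (b * lam - (r * lam + μ)) = W⁻¹ := by
        have : b * lam - (r * lam + μ) = - Real.log W := by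
          rw [hμdef, hEdef]; ring
        rw [this, Real.exp_neg, Real.exp_log hW0]
      have h2 : Real.exp (lam - (r * lam + μ)) ≤ W⁻¹ := by
        rw [← h1]
        apply Real.exp_le_exp.2
        have : lam ≤ b * lam := le_mul_of_one_le_left hlam0 hb1
        linarith
      have h3 : Real.exp (lam - (r * lam + μ)) + Real.exp (b * lam - (r * lam + μ)) ≤
          2 * W⁻¹ := by rw [h1]; linarith
      calc r * ((r - 1) * κ * (Real.exp (lam - (r * lam + μ)) +
          Real.exp (b * lam - (r * lam + μ)))) ≤ r * ((r - 1) * κ * (2 * W⁻¹)) := by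
            apply mul_le_mul_of_nonneg_left _ hr0.le
            exact mul_le_mul_of_nonneg_left h3 (by positivity)
        _ = (r - 1) / r * (1 / (4 * u)) := by
            rw [hWdef]
            have : κ ≠ 0 := by linarith
            field_simp
            ring
        _ ≤ 1 * (1 / (4 * u)) := by
            apply mul_le_mul_of_nonneg_right _ (by positivity)
            rw [div_le_one hr0]; linarith
        _ = _ := one_mul _
    have hY : r * ((((4 * r ^ 2 * u * z : ℕ) : ℝ) + 2) *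
        ((r : ℝ)⁻¹ * (1 + 1 / (4 * r * u)))⁻¹ ^ z * κ *
        (Real.exp (lam + μ - (r * lam + μ)) +
        Real.exp (b * (lam + μ) - (r * lam + μ)) / b ^ z)) ≤ 1 / (4 * u) := by
      set G : ℝ := Real.exp (E + (b - 1) * μ) with hG
      have hG1 : 1 ≤ G := Real.one_le_exp (add_nonneg hE0 (mul_nonneg (by linarith) hμ0))
      have h1 : Real.exp (lam + μ - (r * lam + μ)) = ((r : ℝ) ^ z)⁻¹ := by
        have : lam + μ - (r * lam + μ) = -(z * Real.log r) := by rw [← hlamr]; ring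
        rw [this, Real.exp_neg, Real.exp_nat_mul, Real.exp_log hr0]
      have h2 : Real.exp (b * (lam + μ) - (r * lam + μ)) = G := by
        rw [hG]; congr 1; rw [hEdef]; ring
      have h3 : Real.exp (b * (lam + μ) - (r * lam + μ)) / b ^ z ≤ ((r : ℝ) ^ z)⁻¹ * G := by
        rw [h2, div_eq_mul_inv, mul_comm]
        apply mul_le_mul_of_nonneg_right _ (by positivity)
        exact inv_anti₀ (by positivity) (pow_le_pow_left₀ hr0.le hb_ge z)
      have h4 : Real.exp (lam + μ - (r * lam + μ)) +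
          Real.exp (b * (lam + μ) - (r * lam + μ)) / b ^ z ≤ ((r : ℝ) ^ z)⁻¹ * (2 * G) := by
        rw [h1]
        have : ((r : ℝ) ^ z)⁻¹ * 1 ≤ ((r : ℝ) ^ z)⁻¹ * G :=
          mul_le_mul_of_nonneg_left hG1 (by positivity)
        linarith
      have hGle : G ≤ Real.exp (B * L u) * W ^ (2 * r) := by
        have h5 : E + (b - 1) * μ ≤ B * L u + (2 * r : ℕ) * Real.log W := by
          push_cast
          have h6 : E + (b - 1) * μ = b * E + (b - 1) * Real.log W := by rw [hμdef]; ring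
          rw [h6]
          have h7 : b * E ≤ 2 * r * E := mul_le_mul_of_nonneg_right hb_le hE0
          have h8 : (b - 1) * Real.log W ≤ 2 * r * Real.log W :=
            mul_le_mul_of_nonneg_right (by linarith) hlogW0
          linarith
        calc G ≤ Real.exp (B * L u + (2 * r : ℕ) * Real.log W) := Real.exp_le_exp.2 h5
          _ = _ := by rw [Real.exp_add, Real.exp_nat_mul (Real.log W), Real.exp_log hW0]
      have h5 : (((r : ℝ)⁻¹ * (1 + 1 / (4 * r * u)))⁻¹) ^ z ≤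
          (r : ℝ) ^ z * Real.exp (-(2 * (B * L u))) := by
        have h6 := delta₁_bound (r := r) (u := u) (by omega) hu z
        refine h6.trans (le_of_eq ?_)
        congr 2
        rw [hzr, hC₁eq]
        field_simp
        ring
      have h6 : Real.exp (-(B * L u)) ≤ ((u : ℝ) ^ (8 * r + 8))⁻¹ := by
        refine (exp_neg_le hu B).trans ?_
        apply inv_anti₀ (by positivity)
        exact pow_le_pow_right₀ hU1 (by omega)
      have h7 : Real.exp (-(2 * (B * L u))) * Real.exp (B * L u) = Real.exp (-(B * L u)) := by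
        rw [← Real.exp_add]; congr 1; ring
      have h8 : W ^ (2 * r) ≤ (8 * r ^ 2 * C * Q) ^ (2 * r) * (u : ℝ) ^ (8 * r) := by
        calc W ^ (2 * r) ≤ ((8 * r ^ 2 * C * Q) * (u : ℝ) ^ 4) ^ (2 * r) :=
              pow_le_pow_left₀ hW0.le hWle _
          _ = _ := by
              rw [mul_pow, ← pow_mul]
              congr 2
              ring
      have hT3 : ((4 * r ^ 2 * u * z : ℕ) : ℝ) + 2 ≤ C * u ^ 3 := by
        refine hTκ.trans ?_
        calc (C : ℝ) * u ^ 2 * L u ≤ C * u ^ 2 * u := mul_le_mul_of_nonneg_left hLU (by positivity)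
          _ = _ := by ring
      set TT : ℝ := ((4 * r ^ 2 * u * z : ℕ) : ℝ) + 2 with hTT
      have hTT0 : 0 ≤ TT := by rw [hTT]; positivity
      have hκ0 : 0 ≤ κ := by linarith
      have hG0 : 0 ≤ G := by linarith
      have hrz : (0 : ℝ) < (r : ℝ) ^ z := by positivity
      calc r * (TT * ((r : ℝ)⁻¹ * (1 + 1 / (4 * r * u)))⁻¹ ^ z * κ *
          (Real.exp (lam + μ - (r * lam + μ)) +
          Real.exp (b * (lam + μ) - (r * lam + μ)) / b ^ z))
          ≤ r * (TT * ((r : ℝ) ^ z * Real.exp (-(2 * (B * L u)))) * κ *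
              (((r : ℝ) ^ z)⁻¹ * (2 * G))) := by
            apply mul_le_mul_of_nonneg_left _ hr0.le
            apply mul_le_mul _ h4 (by positivity) (by positivity)
            apply mul_le_mul_of_nonneg_right _ hκ0
            exact mul_le_mul_of_nonneg_left h5 hTT0
        _ = (2 * r) * TT * κ * (Real.exp (-(2 * (B * L u))) * G) := by
            field_simp
        _ ≤ (2 * r) * TT * κ * (Real.exp (-(2 * (B * L u))) *
              (Real.exp (B * L u) * W ^ (2 * r))) := by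
            apply mul_le_mul_of_nonneg_left _ (by positivity)
            exact mul_le_mul_of_nonneg_left hGle (by positivity)
        _ = (2 * r) * TT * κ * (Real.exp (-(B * L u)) * W ^ (2 * r)) := by
            rw [← mul_assoc (Real.exp (-(2 * (B * L u)))), h7]
        _ ≤ (2 * r) * (C * u ^ 3) * (C * Q * u ^ 3) * (((u : ℝ) ^ (8 * r + 8))⁻¹ *
              ((8 * r ^ 2 * C * Q) ^ (2 * r) * (u : ℝ) ^ (8 * r))) := by
            apply mul_le_mul _ _ (by positivity) (by positivity)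
            · apply mul_le_mul _ hκU hκ0 (by positivity)
              exact mul_le_mul_of_nonneg_left hT3 (by positivity)
            · exact mul_le_mul h6 h8 (by positivity) (by positivity)
        _ = (4 * (2 * (r : ℝ) * C ^ 2 * Q * (8 * r ^ 2 * C * Q) ^ (2 * r))) *
              (1 / (4 * u ^ 2)) := by
            rw [pow_add]
            have : (u : ℝ) ^ (8 * r) ≠ 0 := by positivity
            field_simp
        _ ≤ u * (1 / (4 * u ^ 2)) := mul_le_mul_of_nonneg_right hu2r (by positivity)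
        _ = 1 / (4 * u) := by field_simp
    have hm0 : (0 : ℝ) ≤ m N r := Nat.cast_nonneg _
    have hM : (m N r : ℝ) / (D * u) ≤ m N r * (1 / (2 * u)) := by
      rw [div_eq_mul_one_div]
      apply mul_le_mul_of_nonneg_left _ hm0
      exact one_div_le_one_div_of_le (by positivity) (mul_le_mul_of_nonneg_right hDr hU0.le)
    have hXY : (m N r : ℝ) * (r * ((r - 1) * κ * (Real.exp (lam - (r * lam + μ)) +
        Real.exp (b * lam - (r * lam + μ))) + (((4 * r ^ 2 * u * z : ℕ) : ℝ) + 2) *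
        ((r : ℝ)⁻¹ * (1 + 1 / (4 * r * u)))⁻¹ ^ z * κ *
        (Real.exp (lam + μ - (r * lam + μ)) +
        Real.exp (b * (lam + μ) - (r * lam + μ)) / b ^ z))) ≤ m N r * (1 / (2 * u)) := by
      apply mul_le_mul_of_nonneg_left _ hm0
      have : (1 : ℝ) / (2 * u) = 1 / (4 * u) + 1 / (4 * u) := by field_simp; norm_num
      rw [this, mul_add]
      exact add_le_add hX hY
    calc _ ≤ (m N r : ℝ) * (1 / (2 * u)) + m N r * (1 / (2 * u)) := add_le_add hM hXY
      _ = (m N r : ℝ) / u := by field_simp; ring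

theorem main_ext (r : ℕ) (hr : 2 ≤ r) : ∃ C u₀ : ℕ, 2 ≤ u₀ ∧ ∀ N u : ℕ, u₀ ≤ u →
    40 * r * (u * L u) ≤ N → P r N C u := by
  set D := 32 * r ^ 3 with hD
  set Q := D ^ 2 * (1 + L D) with hQ
  set B := 8 * r + 8 + Q with hB
  set C₁ := 16 * r * B with hC₁
  set C₂ := 40 * r * (D * (1 + L D)) * ((r + 6) * C₁) with hC₂
  set C := 4 * r ^ 2 * C₂ + 2 with hC
  have hD2 : 2 ≤ D := by
    have : 1 ≤ r ^ 3 := Nat.one_le_pow _ _ (by omega)
    omega
  have hPP : 1 ≤ 40 * r * (D * (1 + L D)) := by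
    have : 0 < 40 * r * (D * (1 + L D)) := by positivity
    omega
  have hB1 : 1 ≤ B := by omega
  have hC₁1 : 1 ≤ (r + 6) * C₁ := by
    have : 0 < (r + 6) * C₁ := by positivity
    omega
  have h1 : (r + 6) * C₁ ≤ C₂ := Nat.le_mul_of_pos_left _ hPP
  have h2 : 40 * r * (D * (1 + L D)) ≤ C₂ := Nat.le_mul_of_pos_right _ hC₁1
  refine ⟨C, max 2 (max (r * C) (max (8 * r ^ 2 * C * Q)
    (4 * (2 * r * C ^ 2 * Q * (8 * r ^ 2 * C * Q) ^ (2 * r))))), le_max_left _ _, ?_⟩
  intro N u hu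
  simp only [max_le_iff] at hu
  obtain ⟨hu2, hu3, hu4, hu5⟩ := hu
  have key : ∀ k u : ℕ, N ≤ u + k → 2 ≤ u → r * C ≤ u → 8 * r ^ 2 * C * Q ≤ u →
      4 * (2 * r * C ^ 2 * Q * (8 * r ^ 2 * C * Q) ^ (2 * r)) ≤ u →
      40 * r * (u * L u) ≤ N → P r N C u := by
    intro k
    induction k with
    | zero =>
      intro u hk hu2 _ _ _ hN
      exfalso
      have hL := L_pos u
      have h3 : u ≤ u * L u := Nat.le_mul_of_pos_right _ hL
      have h4 : 2 * (u * L u) ≤ 40 * r * (u * L u) := Nat.mul_le_mul_right _ (by omega)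
      omega
    | succ k ih =>
      intro u hk hu2 hu3 hu4 hu5 hN
      by_cases hcase : C₂ * (u * L u) ≤ N
      · have hDu : u + 1 ≤ D * u := by nlinarith
        refine step_param hr hD hQ hB hC₁ h1 le_rfl hu4 hu5 hcase
          (ih (D * u) (by omega) (by omega) (by omega) (by omega) (by omega) ?_)
        refine le_trans ?_ hcase
        have h5 := L_mul' D u
        calc 40 * r * (D * u * L (D * u)) ≤ 40 * r * (D * u * ((1 + L D) * L u)) :=
              Nat.mul_le_mul_left _ (Nat.mul_le_mul_left _ h5)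
          _ = (40 * r * (D * (1 + L D))) * (u * L u) := by ring
          _ ≤ C₂ * (u * L u) := Nat.mul_le_mul_right _ h2
      · exact base_param hr (C₂ := C₂) le_rfl hu3 (by omega) hN
  intro hN
  exact key N u (by omega) hu2 hu3 hu4 hu5 hN

end Pool.Agent.Lib.MP_479b2c_co
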