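import Pool.Agent.Lib.MP_479b2c_co.Step

set_option autoImplicit false

namespace Pool.Agent.Lib.MP_479b2c_co

open Finset

/-- Binary length. -/
def L (u : ℕ) : ℕ := Nat.log 2 u + 1

theorem L_pos (u : ℕ) : 1 ≤ L u := Nat.le_add_left _ _

theorem L_le {u : ℕ} (hu : 1 ≤ u) : L u ≤ u := Nat.log_lt_self 2 (by omega)

theorem lt_two_pow_L (u : ℕ) : u < 2 ^ L u := Nat.lt_pow_succ_log_self one_lt_two u

theorem L_mul (D u : ℕ) : L (D * u) ≤ L D + L u := by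
  have h1 : D * u < 2 ^ (L D + L u) := by
    rw [pow_add]
    exact Nat.mul_lt_mul'' (lt_two_pow_L D) (lt_two_pow_L u)
  have h2 : Nat.log 2 (D * u) < L D + L u :=
    Nat.log_lt_of_lt_pow' (by have := L_pos D; omega) h1
  exact h2

theorem L_mul' (D u : ℕ) : L (D * u) ≤ (1 + L D) * L u := by
  have h1 := L_mul D u
  have h2 := L_pos u
  nlinarith

theorem le_exp_L (u : ℕ) : (u : ℝ) ≤ Real.exp (L u) := by
  have h1 : (u : ℝ) ≤ 2 ^ L u := by exact_mod_cast (lt_two_pow_L u).le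
  have h2 : (2 : ℝ) ≤ Real.exp 1 := by
    have := Real.add_one_le_exp (1 : ℝ); linarith
  calc (u : ℝ) ≤ 2 ^ L u := h1
    _ ≤ (Real.exp 1) ^ L u := pow_le_pow_left₀ (by norm_num) h2 _
    _ = Real.exp (L u) := by rw [← Real.exp_nat_mul]; simp

theorem exp_neg_le {u : ℕ} (hu : 1 ≤ u) (B : ℕ) :
    Real.exp (-((B : ℝ) * L u)) ≤ ((u : ℝ) ^ B)⁻¹ := by
  have hu0 : (0 : ℝ) < u := by exact_mod_cast hu
  rw [Real.exp_neg]
  apply inv_anti₀ (by positivity)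
  rw [Real.exp_nat_mul]
  exact pow_le_pow_left₀ hu0.le (le_exp_L u) B

theorem exp_le_one_add_pow {x : ℝ} (hx : 0 ≤ x) (hx1 : x ≤ 1) (k : ℕ) :
    ((1 + x) ^ k)⁻¹ ≤ Real.exp (-(k * x / 2)) := by
  have h1 : (1 + x)⁻¹ ≤ Real.exp (-(x / 2)) := by
    have h2 : 1 - x / 2 ≤ Real.exp (-(x / 2)) := by
      have := Real.add_one_le_exp (-(x / 2)); linarith
    refine le_trans ?_ h2
    rw [inv_le_iff_one_le_mul₀ (by linarith)]
    nlinarith
  rw [← inv_pow]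
  calc ((1 + x)⁻¹) ^ k ≤ (Real.exp (-(x / 2))) ^ k :=
        pow_le_pow_left₀ (inv_nonneg.2 (by linarith)) h1 k
    _ = Real.exp (-(k * x / 2)) := by rw [← Real.exp_nat_mul]; congr 1; ring

/-- The inductive predicate. -/
def P (r N C u : ℕ) : Prop :=
  Ext r N ((C : ℝ) * (u : ℝ) ^ 2 * (L u : ℝ)) ((r : ℝ) * (1 + 1 / (u : ℝ)))
    ((m N r : ℝ) / (u : ℝ))

theorem delta₂_bound {r u : ℕ} (hr : 1 ≤ r) (hu : 1 ≤ u) :
    ((r : ℝ)⁻¹ * (1 - 1 / (2 * u)))⁻¹ ≤ (r : ℝ) * (1 + 1 / (u : ℝ)) := by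
  have hr0 : (0 : ℝ) < r := by exact_mod_cast hr
  have hu0 : (0 : ℝ) < u := by exact_mod_cast hu
  have hu1 : (1 : ℝ) ≤ u := by exact_mod_cast hu
  have h1 : (0 : ℝ) < 1 - 1 / (2 * u) := by
    have : (1 : ℝ) / (2 * u) ≤ 1 / 2 := one_div_le_one_div_of_le (by norm_num) (by linarith)
    linarith
  rw [mul_inv, inv_inv]
  apply mul_le_mul_of_nonneg_left _ hr0.le
  rw [inv_le_iff_one_le_mul₀ h1]
  have h2 : (1 + 1 / (u : ℝ)) * (1 - 1 / (2 * u)) = 1 + (u - 1) / (2 * u ^ 2) := by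
    field_simp; ring
  rw [h2]
  have : 0 ≤ ((u : ℝ) - 1) / (2 * u ^ 2) := div_nonneg (by linarith) (by positivity)
  linarith

theorem delta₁_bound {r u : ℕ} (hr : 1 ≤ r) (hu : 1 ≤ u) (k : ℕ) :
    (((r : ℝ)⁻¹ * (1 + 1 / (4 * r * u)))⁻¹) ^ k ≤
      (r : ℝ) ^ k * Real.exp (-(k / (8 * r * u))) := by
  have hr0 : (0 : ℝ) < r := by exact_mod_cast hr
  have hu0 : (0 : ℝ) < u := by exact_mod_cast hu
  have hu1 : (1 : ℝ) ≤ u := by exact_mod_cast hu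
  have hr1 : (1 : ℝ) ≤ r := by exact_mod_cast hr
  rw [mul_inv, inv_inv, mul_pow]
  apply mul_le_mul_of_nonneg_left _ (by positivity)
  rw [inv_pow]
  have h1 := exp_le_one_add_pow (x := 1 / (4 * r * u)) (by positivity) (by
    rw [div_le_one (by positivity)]; nlinarith) k
  refine h1.trans (le_of_eq ?_)
  congr 1
  field_simp
  ring

theorem base_param {r : ℕ} (hr : 2 ≤ r) {C₂ C : ℕ} (hC : 4 * r ^ 2 * C₂ + 2 ≤ C) {u N : ℕ}
    (hu : r * C ≤ u) (hN1 : N ≤ C₂ * (u * L u)) (hN2 : 40 * r * (u * L u) ≤ N) :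
    P r N C u := by
  have hC0 : 1 ≤ C := by omega
  have hu1 : 1 ≤ u := by nlinarith
  have hL1 := L_pos u
  have hN : 1 ≤ N := by
    have : 1 ≤ u * L u := Nat.mul_pos hu1 hL1
    nlinarith
  have hr0 : (0 : ℝ) < r := by positivity
  have hr2 : (2 : ℝ) ≤ r := by exact_mod_cast hr
  have hu0 : (0 : ℝ) < u := by exact_mod_cast hu1
  have hu1' : (1 : ℝ) ≤ u := by exact_mod_cast hu1
  have hN0 : (0 : ℝ) < N := by exact_mod_cast hN
  have hLr : (1 : ℝ) ≤ L u := by exact_mod_cast hL1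
  have hLu : (L u : ℝ) ≤ u := by exact_mod_cast L_le hu1
  have hCr : 4 * (r : ℝ) ^ 2 * C₂ + 2 ≤ C := by exact_mod_cast hC
  have hN1r : (N : ℝ) ≤ C₂ * (u * L u) := by exact_mod_cast hN1
  have hN2r : 40 * (r : ℝ) * (u * L u) ≤ N := by exact_mod_cast hN2
  have hur : (r : ℝ) * C ≤ u := by exact_mod_cast hu
  have hq2 : (1 : ℝ) / (2 * u) ≤ 1 / 2 := one_div_le_one_div_of_le (by norm_num) (by linarith)
  have hq1 : (1 : ℝ) / (4 * r * u) ≤ 1 / 8 :=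
    one_div_le_one_div_of_le (by norm_num) (by nlinarith)
  have hri : (r : ℝ)⁻¹ ≤ 1 / 2 := by
    rw [← one_div]; exact one_div_le_one_div_of_le (by norm_num) hr2
  have hri0 : (0 : ℝ) < (r : ℝ)⁻¹ := by positivity
  have hq20 : (0 : ℝ) < 1 / (2 * u) := by positivity
  have hq10 : (0 : ℝ) < 1 / (4 * r * u) := by positivity
  have hTκ : ((4 * r ^ 2 * u * N : ℕ) : ℝ) + 2 ≤ (C : ℝ) * (u : ℝ) ^ 2 * (L u : ℝ) := by
    push_cast
    have h1 : 4 * (r : ℝ) ^ 2 * u * N ≤ 4 * (r : ℝ) ^ 2 * u * (C₂ * (u * L u)) :=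
      mul_le_mul_of_nonneg_left hN1r (by positivity)
    have h2 : (1 : ℝ) ≤ (u : ℝ) ^ 2 * L u := by
      have : (1 : ℝ) ≤ (u : ℝ) ^ 2 := by nlinarith
      nlinarith
    have h3 : (4 * (r : ℝ) ^ 2 * C₂ + 2) * ((u : ℝ) ^ 2 * L u) ≤ C * ((u : ℝ) ^ 2 * L u) :=
      mul_le_mul_of_nonneg_right hCr (by positivity)
    nlinarith
  refine base_general (T := 4 * r ^ 2 * u * N) (by omega) (ε := 1 / (2 * r ^ 2 * u))
    (δ₁ := (r : ℝ)⁻¹ * (1 + 1 / (4 * r * u))) (δ₂ := (r : ℝ)⁻¹ * (1 - 1 / (2 * u)))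
    (by positivity) (by nlinarith) ?_ (mul_pos hri0 (by linarith)) (by nlinarith) ?_ hTκ
    (delta₂_bound (by omega) hu1) ?_
  · push_cast
    apply le_of_eq
    field_simp
    ring
  · push_cast
    have h1 : (r : ℝ)⁻¹ * (1 - 1 / (2 * u)) * (4 * r ^ 2 * u * N) = 4 * r * u * N - 2 * r * N := by
      field_simp; ring
    have h2 : ((r : ℝ)⁻¹ - (r - 1) * (1 / (2 * r ^ 2 * u))) * (4 * r ^ 2 * u * N) =
        4 * r * u * N - 2 * (r - 1) * N := by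
      field_simp; ring
    rw [h1, h2]
    nlinarith
  · have h1 := delta₁_bound (r := r) (u := u) (by omega) hu1 N
    have h2 : Real.exp (-(N / (8 * r * u) : ℝ)) ≤ ((u : ℝ) ^ 5)⁻¹ := by
      refine le_trans ?_ (exp_neg_le hu1 5)
      apply Real.exp_le_exp.2
      rw [neg_le_neg_iff, le_div_iff₀ (by positivity)]
      push_cast
      nlinarith
    have h3 := m_lower (n := N) (r := r) (by omega) hN
    have h4 : (((r : ℝ)⁻¹ * (1 + 1 / (4 * r * u)))⁻¹) ^ N ≤ r * m N r * ((u : ℝ) ^ 5)⁻¹ :=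
      h1.trans (mul_le_mul h3 h2 (by positivity) (by positivity))
    calc (((4 * r ^ 2 * u * N : ℕ) : ℝ) + 2) * ((r : ℝ)⁻¹ * (1 + 1 / (4 * r * u)))⁻¹ ^ N
        ≤ ((C : ℝ) * (u : ℝ) ^ 2 * (L u : ℝ)) * (r * m N r * ((u : ℝ) ^ 5)⁻¹) :=
          mul_le_mul hTκ h4 (by positivity) (by positivity)
      _ ≤ ((C : ℝ) * (u : ℝ) ^ 2 * u) * (r * m N r * ((u : ℝ) ^ 5)⁻¹) := by
          apply mul_le_mul_of_nonneg_right _ (by positivity)
          exact mul_le_mul_of_nonneg_left hLu (by positivity)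
      _ = (r * C) * m N r * ((u : ℝ) ^ 2)⁻¹ := by field_simp
      _ ≤ u * m N r * ((u : ℝ) ^ 2)⁻¹ := by
          apply mul_le_mul_of_nonneg_right _ (by positivity)
          exact mul_le_mul_of_nonneg_right hur (by positivity)
      _ = (m N r : ℝ) / u := by field_simp

end Pool.Agent.Lib.MP_479b2c_co
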