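import Pool.Agent.Lib.MP_479b2c_co.Basic

set_option autoImplicit false

namespace Pool.Agent.Lib.MP_479b2c_co

open Finset

/-- In every colouring without monochromatic member of `G`, for all `y ≤ N` and all colours `c`
some member of `J y` is monochromatic of colour `c`. -/
def Forces (r N : ℕ) {V : Type} (G : Finset (Finset V)) (J : ℕ → Finset (Finset V)) : Prop :=
  ∀ χ : V → Fin r, (∀ e ∈ G, ∀ c, ∃ x ∈ e, χ x ≠ c) →
    ∀ y ≤ N, ∀ c, ∃ A ∈ J y, ∀ x ∈ A, χ x = c

/-- The extension gadget. -/
def Ext (r N : ℕ) (κ b M : ℝ) : Prop :=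
  ∃ (V : Type) (_ : Fintype V) (G : Finset (Finset V)) (J : ℕ → Finset (Finset V)),
    (∀ e ∈ G, N ≤ e.card) ∧ (G.card : ℝ) ≤ M ∧
    (∀ y ≤ N, (∀ A ∈ J y, y ≤ A.card) ∧ ((J y).card : ℝ) ≤ κ * b ^ y) ∧ Forces r N G J

theorem pin_comb {V X W : Type} {r N K : ℕ}
    (G : Finset (Finset V)) (J : ℕ → Finset (Finset V))
    (hJ : ∀ y ≤ N, ∀ A ∈ J y, y ≤ A.card) (hF : Forces r N G J)
    (H : Finset (Finset W)) (hH : ∀ e ∈ H, e.card = K) (hnc : NC r H)
    (Z : Fin r → Finset (Finset X)) (z : Fin r → ℕ)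
    (hZ : ∀ c, ∀ B ∈ Z c, N + z c ≤ K + B.card) (hK : ∀ c, K ≤ N + z c)
    (f : W → Option (Fin r)) [∀ (e : Finset W) (c : Fin r), Decidable (∀ v ∈ e, f v = none ∨ f v = some c)]
    [DecidableEq (Option (Fin r))] :
    ∃ F : Finset (Finset (V ⊕ (X ⊕ W))), (∀ e ∈ F, N ≤ e.card) ∧
      (F.card ≤ ∑ e ∈ H, ∑ c, (if ∀ v ∈ e, f v = none ∨ f v = some c then
        (Z c).card * (J ((e.filter (fun v => f v = some c)).card - z c)).card else 0)) ∧
      ∀ χ : V ⊕ (X ⊕ W) → Fin r, (∀ e ∈ G, ∀ c, ∃ x ∈ e, χ (Sum.inl x) ≠ c) →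
        (∀ e ∈ F, ∀ c, ∃ x ∈ e, χ x ≠ c) →
        ∃ c, ∀ B ∈ Z c, ∃ x ∈ B, χ (Sum.inr (Sum.inl x)) ≠ c := by
  classical
  let Fe : Finset W → Fin r → Finset (Finset (V ⊕ (X ⊕ W))) := fun e c =>
    if ∀ v ∈ e, f v = none ∨ f v = some c then
      ((Z c) ×ˢ J ((e.filter (fun v => f v = some c)).card - z c)).image
        (fun p => p.2.disjSum (p.1.disjSum (e.filter (fun v => f v = none)))) else ∅
  refine ⟨H.biUnion fun e => univ.biUnion fun c => Fe e c, ?_, ?_, ?_⟩
  · intro e' he'
    obtain ⟨e, he, h1⟩ := Finset.mem_biUnion.1 he'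
    obtain ⟨c, -, h2⟩ := Finset.mem_biUnion.1 h1
    simp only [Fe] at h2
    split_ifs at h2 with hcond
    · obtain ⟨p, hp, rfl⟩ := Finset.mem_image.1 h2
      obtain ⟨hp1, hp2⟩ := Finset.mem_product.1 hp
      rw [Finset.card_disjSum, Finset.card_disjSum]
      have h3 : (e.filter (fun v => f v = some c)).card + (e.filter (fun v => f v = none)).card
          = K := by
        rw [← hH e he, ← Finset.card_union_of_disjoint]
        · congr 1
          ext v
          simp only [Finset.mem_union, Finset.mem_filter]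
          constructor
          · rintro (h | h) <;> exact h.1
          · intro h
            rcases hcond v h with h' | h'
            · exact Or.inr ⟨h, h'⟩
            · exact Or.inl ⟨h, h'⟩
        · rw [Finset.disjoint_left]
          intro v hv hv'
          have a1 := (Finset.mem_filter.1 hv).2
          have a2 := (Finset.mem_filter.1 hv').2
          rw [a1] at a2
          exact absurd a2 (by simp)
      have h4 := hZ c _ hp1
      have h5 := hK c
      have h6 := hJ _ (show (e.filter (fun v => f v = some c)).card - z c ≤ N by omega) _ hp2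
      omega
    · exact absurd h2 (Finset.notMem_empty _)
  · refine Finset.card_biUnion_le.trans (Finset.sum_le_sum fun e he => ?_)
    refine Finset.card_biUnion_le.trans (Finset.sum_le_sum fun c _ => ?_)
    simp only [Fe]
    split_ifs with hcond
    · exact Finset.card_image_le.trans (Finset.card_product _ _).le
    · simp
  · intro χ hG hFF
    by_contra hcon
    push Not at hcon
    choose B hB hBm using hcon
    obtain ⟨e, he, c, hc⟩ := hnc (fun v => (f v).getD (χ (Sum.inr (Sum.inr v))))
    have hcond : ∀ v ∈ e, f v = none ∨ f v = some c := by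
      intro v hv
      have := hc v hv
      cases hfv : f v with
      | none => exact Or.inl rfl
      | some a =>
        rw [hfv] at this
        simp at this
        right; rw [this]
    have hle : (e.filter (fun v => f v = some c)).card ≤ K := by
      rw [← hH e he]; exact Finset.card_filter_le _ _
    have h5 := hK c
    obtain ⟨A, hA, hAm⟩ := hF (fun v => χ (Sum.inl v)) hG
      ((e.filter (fun v => f v = some c)).card - z c) (by omega) c
    obtain ⟨x, hx, hxc⟩ := hFF (A.disjSum ((B c).disjSum (e.filter (fun v => f v = none)))) (by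
      refine Finset.mem_biUnion.2 ⟨e, he, Finset.mem_biUnion.2 ⟨c, Finset.mem_univ _, ?_⟩⟩
      simp only [Fe]
      rw [if_pos hcond]
      exact Finset.mem_image.2 ⟨(B c, A), Finset.mem_product.2 ⟨hB c, hA⟩, rfl⟩) c
    apply hxc
    rcases x with x | x | x
    · exact hAm x (Finset.inl_mem_disjSum.1 hx)
    · exact hBm c x (Finset.inl_mem_disjSum.1 (Finset.inr_mem_disjSum.1 hx))
    · have h6 := Finset.mem_filter.1 (Finset.inr_mem_disjSum.1 (Finset.inr_mem_disjSum.1 hx))
      have h7 := hc x h6.1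
      rw [h6.2] at h7
      simpa using h7

theorem one_add_pow_le {K : ℕ} (hK : 1 ≤ K) (t : ℝ) (ht : 0 ≤ 1 + t / K) :
    (1 + t / K) ^ K ≤ Real.exp t := by
  have hK0 : (0 : ℝ) < K := by exact_mod_cast hK
  have h1 : 1 + t / K ≤ Real.exp (t / K) := by
    have := Real.add_one_le_exp (t / K); linarith
  calc (1 + t / K) ^ K ≤ (Real.exp (t / K)) ^ K := pow_le_pow_left₀ ht h1 K
    _ = Real.exp t := by rw [← Real.exp_nat_mul]; congr 1; field_simp

theorem pin {V X W : Type} [Fintype W] {r N K : ℕ} {κ b : ℝ} (hκ : 0 ≤ κ) (hb : 1 ≤ b)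
    (hK0 : 1 ≤ K)
    (G : Finset (Finset V)) (J : ℕ → Finset (Finset V))
    (hJ : ∀ y ≤ N, (∀ A ∈ J y, y ≤ A.card) ∧ ((J y).card : ℝ) ≤ κ * b ^ y)
    (hF : Forces r N G J)
    (H : Finset (Finset W)) (hH : ∀ e ∈ H, e.card = K) (hnc : NC r H)
    (Z : Fin r → Finset (Finset X)) (z : Fin r → ℕ)
    (hZ : ∀ c, ∀ B ∈ Z c, N + z c ≤ K + B.card) (hK : ∀ c, K ≤ N + z c)
    (s : Fin r → ℝ) (hs : ∀ c, 0 ≤ s c) (S : ℝ) (hS : ∑ c, s c = S) (hSK : S ≤ K) :
    ∃ F : Finset (Finset (V ⊕ (X ⊕ W))), (∀ e ∈ F, N ≤ e.card) ∧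
      ((F.card : ℝ) ≤ H.card * ∑ c, (Z c).card * κ *
        (Real.exp (s c - S) + Real.exp (b * s c - S) / b ^ z c)) ∧
      ∀ χ : V ⊕ (X ⊕ W) → Fin r, (∀ e ∈ G, ∀ c, ∃ x ∈ e, χ (Sum.inl x) ≠ c) →
        (∀ e ∈ F, ∀ c, ∃ x ∈ e, χ x ≠ c) →
        ∃ c, ∀ B ∈ Z c, ∃ x ∈ B, χ (Sum.inr (Sum.inl x)) ≠ c := by
  classical
  have hKpos : (0 : ℝ) < K := by exact_mod_cast hK0
  have hb0 : (0 : ℝ) < b := by linarith
  set w : Option (Fin r) → ℝ := fun a => a.elim (1 - S / K) (fun c => s c / K) with hw
  set g : Fin r × Bool → Option (Fin r) → ℝ := fun i a =>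
    if a = some i.1 then (if i.2 then 1 else b) else if a = none then 1 else 0 with hg
  set coef : Fin r × Bool → ℝ := fun i =>
    (Z i.1).card * κ * (if i.2 then 1 else (b ^ z i.1)⁻¹) with hcoef
  have hw0 : ∀ a, 0 ≤ w a := by
    intro a
    cases a with
    | none =>
      simp only [hw, Option.elim]
      have : S / K ≤ 1 := by rw [div_le_one hKpos]; exact hSK
      linarith
    | some c => exact div_nonneg (hs c) hKpos.le
  have hw1 : ∑ a, w a = 1 := by
    rw [Fintype.sum_option]
    simp only [hw, Option.elim]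
    rw [← Finset.sum_div, hS]
    ring
  obtain ⟨f, hf⟩ := exists_pin w hw0 hw1 H K hH (univ : Finset (Fin r × Bool)) coef g
  obtain ⟨F, hF1, hF2, hF3⟩ := pin_comb G J (fun y hy => (hJ y hy).1) hF H hH hnc Z z hZ hK f
  refine ⟨F, hF1, ?_, hF3⟩
  have hF2' : (F.card : ℝ) ≤ ∑ e ∈ H, ∑ c, (if ∀ v ∈ e, f v = none ∨ f v = some c then
        ((Z c).card : ℝ) * ((J ((e.filter (fun v => f v = some c)).card - z c)).card : ℝ)
        else 0) := by
    exact_mod_cast hF2
  have hcost : ∑ e ∈ H, ∑ c, (if ∀ v ∈ e, f v = none ∨ f v = some c then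
        ((Z c).card : ℝ) * ((J ((e.filter (fun v => f v = some c)).card - z c)).card : ℝ)
        else 0) ≤ ∑ e ∈ H, ∑ i : Fin r × Bool, coef i * ∏ v ∈ e, g i (f v) := by
    refine Finset.sum_le_sum fun e he => ?_
    rw [Fintype.sum_prod_type]
    refine Finset.sum_le_sum fun c _ => ?_
    rw [Fintype.sum_bool]
    have hgnn : ∀ i a, 0 ≤ g i a := by
      intro i a
      simp only [hg]
      split_ifs <;> first | exact hb0.le | norm_num
    have hcnn : ∀ i, 0 ≤ coef i := by
      intro i
      simp only [hcoef]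
      split_ifs <;> positivity
    split_ifs with hcond
    · set i := (e.filter (fun v => f v = some c)).card with hi
      have hle : i ≤ K := by
        rw [← hH e he]; exact Finset.card_filter_le _ _
      have h5 := hK c
      have h1 : ((J (i - z c)).card : ℝ) ≤ κ * b ^ (i - z c) := (hJ _ (by omega)).2
      have h2 : b ^ (i - z c) ≤ 1 + b ^ i * (b ^ z c)⁻¹ := by
        rcases le_total i (z c) with h | h
        · rw [Nat.sub_eq_zero_of_le h, pow_zero]
          have : 0 ≤ b ^ i * (b ^ z c)⁻¹ := by positivity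
          linarith
        · have : b ^ i * (b ^ z c)⁻¹ = b ^ (i - z c) := by
            rw [← div_eq_mul_inv, div_eq_iff (by positivity), ← pow_add]
            congr 1; omega
          rw [this]; linarith
      have hp1 : ∏ v ∈ e, g (c, true) (f v) = 1 := by
        refine Finset.prod_eq_one fun v hv => ?_
        simp only [hg]
        rcases hcond v hv with h | h <;> simp [h]
      have hp2 : ∏ v ∈ e, g (c, false) (f v) = b ^ i := by
        have h6 : ∏ v ∈ e, g (c, false) (f v) = ∏ v ∈ e, (if f v = some c then b else 1) := by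
          refine Finset.prod_congr rfl fun v hv => ?_
          simp only [hg]
          rcases hcond v hv with h | h <;> simp [h]
        rw [h6, Finset.prod_ite]
        simp [hi]
      rw [hp1, hp2]
      simp only [hcoef, if_true, mul_one]
      simp only [Bool.false_eq_true, if_false]
      calc ((Z c).card : ℝ) * ((J (i - z c)).card : ℝ)
          ≤ (Z c).card * (κ * (1 + b ^ i * (b ^ z c)⁻¹)) := by
            apply mul_le_mul_of_nonneg_left _ (Nat.cast_nonneg _)
            exact h1.trans (mul_le_mul_of_nonneg_left h2 hκ)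
        _ = _ := by ring
    · exact add_nonneg (mul_nonneg (hcnn _) (Finset.prod_nonneg fun v _ => hgnn _ _))
        (mul_nonneg (hcnn _) (Finset.prod_nonneg fun v _ => hgnn _ _))
  refine hF2'.trans (hcost.trans (hf.trans ?_))
  apply mul_le_mul_of_nonneg_left _ (by positivity)
  rw [Fintype.sum_prod_type]
  refine Finset.sum_le_sum fun c _ => ?_
  rw [Fintype.sum_bool]
  have hsum : ∀ β : Bool, ∑ a, w a * g (c, β) a =
      1 + ((if β then 1 else b) * s c - S) / K := by
    intro β
    rw [Fintype.sum_option]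
    have : ∀ i : Fin r, w (some i) * g (c, β) (some i) =
        if i = c then (if β then 1 else b) * s c / K else 0 := by
      intro i
      simp only [hw, hg, Option.elim]
      by_cases h : i = c
      · subst h; cases β <;> simp <;> ring
      · simp [h]
    rw [Finset.sum_congr rfl (fun i _ => this i), Finset.sum_ite_eq']
    simp only [hw, hg, Option.elim, Finset.mem_univ, if_true]
    simp
    ring
  have hSK' : S / K ≤ 1 := by rw [div_le_one hKpos]; exact hSK
  have hnn : ∀ β : Bool, 0 ≤ 1 + ((if β then 1 else b) * s c - S) / K := by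
    intro β
    have h1 : 0 ≤ (if β then 1 else b) * s c / K := by
      have := hs c
      split_ifs <;> positivity
    rw [sub_div]
    linarith
  rw [hsum true, hsum false]
  have e1 := one_add_pow_le hK0 _ (hnn true)
  have e2 := one_add_pow_le hK0 _ (hnn false)
  simp only [if_true, one_mul, Bool.false_eq_true, if_false] at e1 e2 ⊢
  simp only [hcoef, if_true, mul_one, Bool.false_eq_true, if_false]
  have hbz : 0 ≤ (b ^ z c)⁻¹ := by positivity
  calc ((Z c).card : ℝ) * κ * (1 + (s c - S) / K) ^ K +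
      (Z c).card * κ * (b ^ z c)⁻¹ * (1 + (b * s c - S) / K) ^ K
      ≤ ((Z c).card : ℝ) * κ * Real.exp (s c - S) +
      (Z c).card * κ * (b ^ z c)⁻¹ * Real.exp (b * s c - S) := by
        apply add_le_add
        · exact mul_le_mul_of_nonneg_left e1 (by positivity)
        · exact mul_le_mul_of_nonneg_left e2 (by positivity)
    _ = _ := by ring

end Pool.Agent.Lib.MP_479b2c_co
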