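import Pool.Agent.Lib.MP_479b2c_co.Pin

set_option autoImplicit false

namespace Pool.Agent.Lib.MP_479b2c_co

open Finset

/-- If no member of `Z` is monochromatic then all colour classes are large. -/
theorem block {T r : ℕ} (hr : 1 ≤ r) (ε : ℝ) (Z : Finset (Finset (Fin T)))
    (hZ : ∀ S : Finset (Fin T), ((r : ℝ)⁻¹ + ε) * T ≤ S.card → ∃ B ∈ Z, B ⊆ S)
    (χ : Fin T → Fin r) (hχ : ∀ c, ∀ B ∈ Z, ∃ x ∈ B, χ x ≠ c) (c : Fin r) :
    ((r : ℝ)⁻¹ - (r - 1) * ε) * T ≤ ((univ.filter (fun x => χ x = c)).card : ℝ) := by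
  classical
  have hr0 : (0 : ℝ) < r := by exact_mod_cast hr
  have hup : ∀ c', ((univ.filter (fun x => χ x = c')).card : ℝ) ≤ ((r : ℝ)⁻¹ + ε) * T := by
    intro c'
    by_contra hcon
    push Not at hcon
    obtain ⟨B, hB, hBS⟩ := hZ _ hcon.le
    obtain ⟨x, hx, hxc⟩ := hχ c' B hB
    exact hxc (Finset.mem_filter.1 (hBS hx)).2
  have hsum : ∑ c', ((univ.filter (fun x => χ x = c')).card : ℝ) = T := by
    have h := Finset.card_eq_sum_card_fiberwise (f := χ) (s := (univ : Finset (Fin T)))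
      (t := (univ : Finset (Fin r))) (fun _ _ => Finset.mem_coe.2 (Finset.mem_univ _))
    rw [Finset.card_univ, Fintype.card_fin] at h
    exact_mod_cast h.symm
  rw [← Finset.add_sum_erase _ _ (Finset.mem_univ c)] at hsum
  have hle : ∑ c' ∈ univ.erase c, ((univ.filter (fun x => χ x = c')).card : ℝ) ≤
      (r - 1) * (((r : ℝ)⁻¹ + ε) * T) := by
    calc ∑ c' ∈ univ.erase c, ((univ.filter (fun x => χ x = c')).card : ℝ)
        ≤ ∑ c' ∈ univ.erase c, ((r : ℝ)⁻¹ + ε) * T := Finset.sum_le_sum fun c' _ => hup c'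
      _ = (r - 1) * (((r : ℝ)⁻¹ + ε) * T) := by
          rw [Finset.sum_const, Finset.card_erase_of_mem (Finset.mem_univ c), Finset.card_univ,
            Fintype.card_fin, nsmul_eq_mul, Nat.cast_sub hr, Nat.cast_one]
  have h1 : ((r : ℝ)⁻¹ - (r - 1) * ε) * T = T - (r - 1) * (((r : ℝ)⁻¹ + ε) * T) := by
    field_simp
    ring
  rw [h1]
  linarith

theorem base_general {r N T : ℕ} (hr : 1 ≤ r) {ε δ₁ δ₂ κ' b' M' : ℝ}
    (hδ₁ : 0 < δ₁) (hδ₁1 : δ₁ ≤ 1) (h1 : δ₁ * T + N ≤ ((r : ℝ)⁻¹ + ε) * T)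
    (hδ₂ : 0 < δ₂) (hδ₂1 : δ₂ ≤ 1) (h2 : δ₂ * T + N ≤ ((r : ℝ)⁻¹ - (r - 1) * ε) * T)
    (hκ' : (T : ℝ) + 2 ≤ κ') (hb' : δ₂⁻¹ ≤ b') (hM' : (T + 2) * δ₁⁻¹ ^ N ≤ M') :
    Ext r N κ' b' M' := by
  classical
  obtain ⟨Z, hZc, hZ, hZcov⟩ := cover T N δ₁ _ hδ₁ hδ₁1 h1
  have hJ : ∀ y : ℕ, y ≤ N → ∃ J : Finset (Finset (Fin T)), (∀ A ∈ J, A.card = y) ∧
      (J.card : ℝ) ≤ (T + 2) * (δ₂⁻¹) ^ y ∧
      ∀ S : Finset (Fin T), ((r : ℝ)⁻¹ - (r - 1) * ε) * T ≤ S.card → ∃ A ∈ J, A ⊆ S := by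
    intro y hy
    have hy' : (y : ℝ) ≤ N := by exact_mod_cast hy
    exact cover T y δ₂ _ hδ₂ hδ₂1 (by linarith)
  choose! J hJc hJ' hJcov using hJ
  refine ⟨Fin T, inferInstance, Z, J, fun e he => (hZc e he).ge, hZ.trans hM', ?_, ?_⟩
  · intro y hy
    refine ⟨fun A hA => (hJc y hy A hA).ge, (hJ' y hy).trans ?_⟩
    apply mul_le_mul hκ' (pow_le_pow_left₀ (by positivity) hb' y) (by positivity)
    exact le_trans (by positivity) hκ'
  · intro χ hχ y hy c
    obtain ⟨A, hA, hAS⟩ := hJcov y hy _ (block hr ε Z hZcov χ (fun c B hB => hχ B hB c) c)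
    exact ⟨A, hA, fun x hx => (Finset.mem_filter.1 (hAS hx)).2⟩

theorem step_general {r N T z y₁ : ℕ} (hr : 2 ≤ r) (hN : 1 ≤ N)
    {κ b M κ' b' M' ε δ₁ δ₂ lam μ : ℝ} (hExt : Ext r N κ b M) (hκ : 0 ≤ κ) (hb : 1 ≤ b)
    (hδ₁ : 0 < δ₁) (hδ₁1 : δ₁ ≤ 1) (h1 : δ₁ * T + z ≤ ((r : ℝ)⁻¹ + ε) * T)
    (hδ₂ : 0 < δ₂) (hδ₂1 : δ₂ ≤ 1) (h2 : δ₂ * T + y₁ ≤ ((r : ℝ)⁻¹ - (r - 1) * ε) * T)
    (hκ' : (T : ℝ) + 2 ≤ κ') (hb' : δ₂⁻¹ ≤ b')
    (hold : ∀ y, y₁ < y → y ≤ N → κ * b ^ y ≤ κ' * b' ^ y)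
    (hlam : 0 ≤ lam) (hμ : 0 ≤ μ) (hS : r * lam + μ ≤ N)
    (hM' : M + m N r * (r * ((r - 1) * κ * (Real.exp (lam - (r * lam + μ)) +
      Real.exp (b * lam - (r * lam + μ))) +
      (T + 2) * δ₁⁻¹ ^ z * κ * (Real.exp (lam + μ - (r * lam + μ)) +
        Real.exp (b * (lam + μ) - (r * lam + μ)) / b ^ z))) ≤ M') :
    Ext r N κ' b' M' := by
  classical
  have hr1 : 1 ≤ r := by omega
  obtain ⟨V, hV, G, J, hGN, hGM, hJ, hF⟩ := hExt
  obtain ⟨K, H, hHm, hHu, hHnc⟩ := exists_opt (n := N) hr1 hN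
  obtain ⟨Z, hZc, hZ, hZcov⟩ := cover T z δ₁ _ hδ₁ hδ₁1 h1
  have hJn : ∀ y : ℕ, y ≤ y₁ → ∃ J : Finset (Finset (Fin T)), (∀ A ∈ J, A.card = y) ∧
      (J.card : ℝ) ≤ (T + 2) * (δ₂⁻¹) ^ y ∧
      ∀ S : Finset (Fin T), ((r : ℝ)⁻¹ - (r - 1) * ε) * T ≤ S.card → ∃ A ∈ J, A ⊆ S := by
    intro y hy
    have hy' : (y : ℝ) ≤ y₁ := by exact_mod_cast hy
    exact cover T y δ₂ _ hδ₂ hδ₂1 (by linarith)
  choose! Jn hJnc hJn' hJncov using hJn
  -- pinning for each colour
  have hpin : ∀ c₀ : Fin r, ∃ F : Finset (Finset (V ⊕ (Fin T ⊕ Fin K))),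
      (∀ e ∈ F, N ≤ e.card) ∧
      ((F.card : ℝ) ≤ m N r * ((r - 1) * κ * (Real.exp (lam - (r * lam + μ)) +
      Real.exp (b * lam - (r * lam + μ))) +
      (T + 2) * δ₁⁻¹ ^ z * κ * (Real.exp (lam + μ - (r * lam + μ)) +
        Real.exp (b * (lam + μ) - (r * lam + μ)) / b ^ z))) ∧
      ∀ χ : V ⊕ (Fin T ⊕ Fin K) → Fin r, (∀ e ∈ G, ∀ c, ∃ x ∈ e, χ (Sum.inl x) ≠ c) →
        (∀ e ∈ F, ∀ c, ∃ x ∈ e, χ x ≠ c) →
        ∀ B ∈ Z, ∃ x ∈ B, χ (Sum.inr (Sum.inl x)) ≠ c₀ := by
    intro c₀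
    have hsumS : ∑ c : Fin r, (lam + if c = c₀ then μ else 0) = r * lam + μ := by
      rw [Finset.sum_add_distrib]
      simp
    obtain ⟨F, hF1, hF2, hF3⟩ := pin (X := Fin T) hκ hb hN G J hJ hF H hHu hHnc
      (fun c => if c = c₀ then Z else {∅}) (fun c => if c = c₀ then z else 0)
      (by
        intro c B hB
        by_cases hc : c = c₀
        · simp only [hc, if_true] at hB ⊢
          rw [hZc B hB]
        · simp only [hc, if_false] at hB ⊢
          omega)
      (by intro c; omega)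
      (fun c => lam + if c = c₀ then μ else 0)
      (by intro c; split_ifs <;> linarith) (r * lam + μ) hsumS hS
    refine ⟨F, hF1, hF2.trans ?_, ?_⟩
    · have hm : (H.card : ℝ) ≤ m N r := by exact_mod_cast hHm
      have hb0 : (0 : ℝ) < b := by linarith
      have hterm : ∀ c : Fin r, (((if c = c₀ then Z else {∅} : Finset (Finset (Fin T))).card : ℝ)) * κ *
          (Real.exp ((lam + if c = c₀ then μ else 0) - (r * lam + μ)) +
            Real.exp (b * (lam + if c = c₀ then μ else 0) - (r * lam + μ)) /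
              b ^ (if c = c₀ then z else 0)) =
          if c = c₀ then (Z.card : ℝ) * κ * (Real.exp (lam + μ - (r * lam + μ)) +
            Real.exp (b * (lam + μ) - (r * lam + μ)) / b ^ z) else
            κ * (Real.exp (lam - (r * lam + μ)) + Real.exp (b * lam - (r * lam + μ))) := by
        intro c
        split_ifs <;> simp
      rw [Finset.sum_congr rfl (fun c _ => hterm c)]
      rw [← Finset.add_sum_erase _ _ (Finset.mem_univ c₀), if_pos rfl]
      have herase : ∑ c ∈ univ.erase c₀, (if c = c₀ then (Z.card : ℝ) * κ *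
            (Real.exp (lam + μ - (r * lam + μ)) +
            Real.exp (b * (lam + μ) - (r * lam + μ)) / b ^ z) else
            κ * (Real.exp (lam - (r * lam + μ)) + Real.exp (b * lam - (r * lam + μ)))) =
          (r - 1) * (κ * (Real.exp (lam - (r * lam + μ)) + Real.exp (b * lam - (r * lam + μ)))) := by
        rw [Finset.sum_congr rfl (fun c hc => if_neg (Finset.ne_of_mem_erase hc)),
          Finset.sum_const, Finset.card_erase_of_mem (Finset.mem_univ c₀), Finset.card_univ,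
          Fintype.card_fin, nsmul_eq_mul, Nat.cast_sub hr1, Nat.cast_one]
      rw [herase]
      have hrr : (0 : ℝ) ≤ (r : ℝ) - 1 := by
        have : (1 : ℝ) ≤ r := by exact_mod_cast hr1
        linarith
      apply mul_le_mul hm _ _ (by positivity)
      · have h3 : (Z.card : ℝ) * κ * (Real.exp (lam + μ - (r * lam + μ)) +
            Real.exp (b * (lam + μ) - (r * lam + μ)) / b ^ z) ≤
            (T + 2) * δ₁⁻¹ ^ z * κ * (Real.exp (lam + μ - (r * lam + μ)) +
            Real.exp (b * (lam + μ) - (r * lam + μ)) / b ^ z) := by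
          apply mul_le_mul_of_nonneg_right _ (by positivity)
          exact mul_le_mul_of_nonneg_right hZ hκ
        linarith
      · positivity
    · intro χ hG hFF
      obtain ⟨c, hc⟩ := hF3 χ hG hFF
      by_cases hcc : c = c₀
      · subst hcc
        simpa using hc
      · have := hc ∅ (by simp [hcc])
        obtain ⟨x, hx, -⟩ := this
        exact absurd hx (Finset.notMem_empty _)
  choose F hF1 hF2 hF3 using hpin
  let iV : V ↪ V ⊕ (Fin T ⊕ Fin K) := ⟨Sum.inl, Sum.inl_injective⟩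
  let iX : Fin T ↪ V ⊕ (Fin T ⊕ Fin K) :=
    ⟨fun x => Sum.inr (Sum.inl x), fun a b h => by simpa using h⟩
  refine ⟨V ⊕ (Fin T ⊕ Fin K), inferInstance,
    G.image (fun e => e.map iV) ∪ univ.biUnion F,
    fun y => if y ≤ y₁ then (Jn y).image (fun A => A.map iX) else (J y).image (fun A => A.map iV),
    ?_, ?_, ?_, ?_⟩
  · intro e he
    rcases Finset.mem_union.1 he with he | he
    · obtain ⟨e', he', rfl⟩ := Finset.mem_image.1 he
      rw [Finset.card_map]
      exact hGN e' he'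
    · obtain ⟨c, -, hc⟩ := Finset.mem_biUnion.1 he
      exact hF1 c e hc
  · refine le_trans ?_ hM'
    have h3 : ((G.image (fun e => e.map iV) ∪ univ.biUnion F).card : ℝ) ≤
        G.card + ∑ c : Fin r, ((F c).card : ℝ) := by
      have : (G.image (fun e => e.map iV) ∪ univ.biUnion F).card ≤
        G.card + ∑ c : Fin r, (F c).card :=
        (Finset.card_union_le _ _).trans (add_le_add Finset.card_image_le Finset.card_biUnion_le)
      exact_mod_cast this
    refine h3.trans (add_le_add hGM ?_)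
    refine (Finset.sum_le_sum fun c _ => hF2 c).trans ?_
    rw [Finset.sum_const, Finset.card_univ, Fintype.card_fin, nsmul_eq_mul]
    apply le_of_eq
    ring
  · intro y hy
    have hκ'0 : 0 ≤ κ' := le_trans (by positivity) hκ'
    by_cases hyy : y ≤ y₁
    · simp only [hyy, if_true]
      refine ⟨?_, ?_⟩
      · intro A hA
        obtain ⟨A', hA', rfl⟩ := Finset.mem_image.1 hA
        rw [Finset.card_map, hJnc y hyy A' hA']
      · have h3 : (((Jn y).image (fun A => A.map iX)).card : ℝ) ≤ (Jn y).card := by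
          exact_mod_cast Finset.card_image_le
        refine h3.trans ((hJn' y hyy).trans ?_)
        apply mul_le_mul hκ' (pow_le_pow_left₀ (by positivity) hb' y) (by positivity) hκ'0
    · simp only [hyy, if_false]
      refine ⟨?_, ?_⟩
      · intro A hA
        obtain ⟨A', hA', rfl⟩ := Finset.mem_image.1 hA
        rw [Finset.card_map]
        exact (hJ y hy).1 A' hA'
      · have h3 : (((J y).image (fun A => A.map iV)).card : ℝ) ≤ (J y).card := by
          exact_mod_cast Finset.card_image_le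
        exact h3.trans (((hJ y hy).2).trans (hold y (by omega) hy))
  · intro χ hχ y hy c
    have hG : ∀ e ∈ G, ∀ c, ∃ x ∈ e, χ (Sum.inl x) ≠ c := by
      intro e he c
      obtain ⟨x, hx, hxc⟩ := hχ (e.map iV)
        (Finset.mem_union_left _ (Finset.mem_image_of_mem _ he)) c
      obtain ⟨v, hv, rfl⟩ := Finset.mem_map.1 hx
      exact ⟨v, hv, hxc⟩
    by_cases hyy : y ≤ y₁
    · simp only [hyy, if_true]
      have hbal : ∀ c, ∀ B ∈ Z, ∃ x ∈ B, χ (Sum.inr (Sum.inl x)) ≠ c := by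
        intro c
        exact hF3 c χ hG (fun e he c' => hχ e (Finset.mem_union_right _
          (Finset.mem_biUnion.2 ⟨c, Finset.mem_univ _, he⟩)) c')
      obtain ⟨A, hA, hAS⟩ := hJncov y hyy _ (block hr1 ε Z hZcov
        (fun x => χ (Sum.inr (Sum.inl x))) hbal c)
      refine ⟨A.map iX, Finset.mem_image_of_mem _ hA, ?_⟩
      intro x hx
      obtain ⟨v, hv, rfl⟩ := Finset.mem_map.1 hx
      exact (Finset.mem_filter.1 (hAS hv)).2
    · simp only [hyy, if_false]
      obtain ⟨A, hA, hAm⟩ := hF (fun v => χ (Sum.inl v)) hG y hy c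
      refine ⟨A.map iV, Finset.mem_image_of_mem _ hA, ?_⟩
      intro x hx
      obtain ⟨v, hv, rfl⟩ := Finset.mem_map.1 hx
      exact hAm v hv

/-- Upper bound from a gadget. -/
theorem upper_of_ext {r n j : ℕ} {κ b M : ℝ} (hr : 1 ≤ r) (hn : 1 ≤ n)
    (h : Ext r (n + j) κ b M) :
    (m (n + j) r : ℝ) ≤ M + m n r * (κ * b ^ j) := by
  classical
  obtain ⟨V, hV, G, J, hGN, hGM, hJ, hF⟩ := h
  obtain ⟨K, H, hHm, hHu, hHnc⟩ := exists_opt (n := n) hr hn
  let iV : V ↪ V ⊕ Fin K := ⟨Sum.inl, Sum.inl_injective⟩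
  have h1 : m (n + j) r ≤ (G.image (fun e => e.map iV) ∪
      (H ×ˢ J j).image (fun p => p.2.disjSum p.1)).card := by
    refine m_le _ ?_ ?_
    · intro e he
      rcases Finset.mem_union.1 he with he | he
      · obtain ⟨e', he', rfl⟩ := Finset.mem_image.1 he
        rw [Finset.card_map]
        exact hGN e' he'
      · obtain ⟨p, hp, rfl⟩ := Finset.mem_image.1 he
        obtain ⟨hp1, hp2⟩ := Finset.mem_product.1 hp
        rw [Finset.card_disjSum, hHu _ hp1]
        have := (hJ j (by omega)).1 _ hp2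
        omega
    · intro χ
      by_contra hcon
      push Not at hcon
      have hG : ∀ e ∈ G, ∀ c, ∃ x ∈ e, χ (Sum.inl x) ≠ c := by
        intro e he c
        obtain ⟨x, hx, hxc⟩ := hcon (e.map iV)
          (Finset.mem_union_left _ (Finset.mem_image_of_mem _ he)) c
        obtain ⟨v, hv, rfl⟩ := Finset.mem_map.1 hx
        exact ⟨v, hv, hxc⟩
      obtain ⟨e, he, c, hec⟩ := hHnc (fun x => χ (Sum.inr x))
      obtain ⟨A, hA, hAm⟩ := hF (fun v => χ (Sum.inl v)) hG j (by omega) c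
      obtain ⟨x, hx, hxc⟩ := hcon (A.disjSum e) (Finset.mem_union_right _
        (Finset.mem_image.2 ⟨(e, A), Finset.mem_product.2 ⟨he, hA⟩, rfl⟩)) c
      apply hxc
      rcases x with x | x
      · exact hAm x (Finset.inl_mem_disjSum.1 hx)
      · exact hec x (Finset.inr_mem_disjSum.1 hx)
  have h2 : (m (n + j) r : ℝ) ≤ G.card + H.card * (J j).card := by
    have : m (n + j) r ≤ G.card + H.card * (J j).card := by
      refine h1.trans ((Finset.card_union_le _ _).trans (add_le_add Finset.card_image_le ?_))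
      exact Finset.card_image_le.trans (Finset.card_product _ _).le
    exact_mod_cast this
  have hm : (H.card : ℝ) ≤ m n r := by exact_mod_cast hHm
  refine h2.trans (add_le_add hGM ?_)
  exact mul_le_mul hm (hJ j (by omega)).2 (by positivity) (by positivity)

/-- Lower bound from a gadget. -/
theorem lower_of_ext {r n j : ℕ} {κ b M lam : ℝ} (hr : 1 ≤ r) (hn : 1 ≤ n)
    (h : Ext r n κ b M) (hκ : 0 ≤ κ) (hb : 1 ≤ b) (hlam : 0 ≤ lam) (hrl : r * lam ≤ n + j) :
    (m n r : ℝ) ≤ M + m (n + j) r * (r * κ * (Real.exp (lam - r * lam) +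
      Real.exp (b * lam - r * lam) / b ^ j)) := by
  classical
  obtain ⟨V, hV, G, J, hGN, hGM, hJ, hF⟩ := h
  obtain ⟨K, H, hHm, hHu, hHnc⟩ := exists_opt (n := n + j) hr (by omega)
  obtain ⟨F, hF1, hF2, hF3⟩ := pin (X := Fin 0) (K := n + j) hκ hb (by omega) G J hJ hF H hHu hHnc
      (fun _ => {∅}) (fun _ => j) (by intro c B hB; omega) (by intro c; omega)
      (fun _ => lam) (fun _ => hlam) (r * lam) (by simp) (by push_cast; exact hrl)
  let iV : V ↪ V ⊕ (Fin 0 ⊕ Fin K) := ⟨Sum.inl, Sum.inl_injective⟩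
  have h1 : m n r ≤ (G.image (fun e => e.map iV) ∪ F).card := by
    refine m_le _ ?_ ?_
    · intro e he
      rcases Finset.mem_union.1 he with he | he
      · obtain ⟨e', he', rfl⟩ := Finset.mem_image.1 he
        rw [Finset.card_map]
        exact hGN e' he'
      · exact hF1 e he
    · intro χ
      by_contra hcon
      push Not at hcon
      have hG : ∀ e ∈ G, ∀ c, ∃ x ∈ e, χ (Sum.inl x) ≠ c := by
        intro e he c
        obtain ⟨x, hx, hxc⟩ := hcon (e.map iV)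
          (Finset.mem_union_left _ (Finset.mem_image_of_mem _ he)) c
        obtain ⟨v, hv, rfl⟩ := Finset.mem_map.1 hx
        exact ⟨v, hv, hxc⟩
      obtain ⟨c, hc⟩ := hF3 χ hG (fun e he c => hcon e (Finset.mem_union_right _ he) c)
      obtain ⟨x, hx, -⟩ := hc ∅ (by simp)
      exact absurd hx (Finset.notMem_empty _)
  have h2 : (m n r : ℝ) ≤ G.card + F.card := by
    exact_mod_cast h1.trans ((Finset.card_union_le _ _).trans
      (Nat.add_le_add_right Finset.card_image_le _))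
  have hm : (H.card : ℝ) ≤ m (n + j) r := by exact_mod_cast hHm
  refine h2.trans (add_le_add hGM (hF2.trans ?_))
  simp only [Finset.card_singleton, Nat.cast_one, one_mul, Finset.sum_const, Finset.card_univ,
    Fintype.card_fin, nsmul_eq_mul]
  have hb0 : (0 : ℝ) < b := by linarith
  calc (H.card : ℝ) * (r * (κ * (Real.exp (lam - r * lam) +
      Real.exp (b * lam - r * lam) / b ^ j)))
      ≤ m (n + j) r * (r * (κ * (Real.exp (lam - r * lam) +
      Real.exp (b * lam - r * lam) / b ^ j))) :=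
        mul_le_mul_of_nonneg_right hm (by positivity)
    _ = _ := by ring

end Pool.Agent.Lib.MP_479b2c_co
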